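import Pool.Agent.Helper17.Strange.ProjDomain

/-!
The twisting sheaf `O(1)` on `Proj 𝒜` for a graded domain, as a sheaf of modules.
-/

set_option autoImplicit false

open AlgebraicGeometry CategoryTheory TopologicalSpace Opposite HomogeneousLocalization

universe u

namespace Pool.Agent.Helper17.Strange

variable {A : Type u} [CommRing A] [IsDomain A] {σ : Type*} [SetLike σ A] [AddSubgroupClass σ A]
  (𝒜 : ℕ → σ) [GradedRing 𝒜]

/-- locally a fraction of degree one -/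
def isFrac1Prelocal : TopCat.PrelocalPredicate
    fun _ : (Proj 𝒜).toPresheafedSpace => FractionRing A where
  pred {U} g := ∃ (i : ℕ) (a b : A), a ∈ 𝒜 (i + 1) ∧ b ∈ 𝒜 i ∧
    ∀ y : U, b ∉ ProjectiveSpectrum.asHomogeneousIdeal y.1 ∧
      g y = algebraMap A (FractionRing A) a / algebraMap A (FractionRing A) b
  res := by
    rintro V U i f ⟨j, a, b, ha, hb, h⟩
    exact ⟨j, a, b, ha, hb, fun y => h (i y)⟩

/-- locally a fraction of degree one -/
def isLocFrac1 : TopCat.LocalPredicate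
    fun _ : (Proj 𝒜).toPresheafedSpace => FractionRing A :=
  (isFrac1Prelocal 𝒜).sheafify

variable {𝒜}

lemma isLocFrac1_iff {U : (Proj 𝒜).Opens} (g : U → FractionRing A) :
    (isLocFrac1 𝒜).pred g ↔ ∀ (x : Proj 𝒜) (_ : x ∈ U), ∃ V : (Proj 𝒜).Opens, x ∈ V ∧
      ∃ _ : V ≤ U, ∃ (i : ℕ) (a b : A), a ∈ 𝒜 (i + 1) ∧ b ∈ 𝒜 i ∧
      ∀ (y : Proj 𝒜) (_ : y ∈ V) (hU : y ∈ U), b ∉ y.asHomogeneousIdeal ∧
        g ⟨y, hU⟩ = algebraMap A (FractionRing A) a / algebraMap A (FractionRing A) b := by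
  constructor
  · intro h x hx
    obtain ⟨V, hxV, i, n, a, b, ha, hb, hab⟩ := h ⟨x, hx⟩
    exact ⟨V, hxV, i.le, n, a, b, ha, hb, fun y hy hU => hab ⟨y, hy⟩⟩
  · intro h x
    obtain ⟨V, hxV, i, n, a, b, ha, hb, hab⟩ := h x.1 x.2
    exact ⟨V, hxV, homOfLE i, n, a, b, ha, hb, fun y => hab y.1 y.2 (i y.2)⟩

variable (𝒜)

/-- sections of `O(1)` -/
def twSub (U : (Proj 𝒜).Opens) : AddSubgroup (U → FractionRing A) where
  carrier := {g | (isLocFrac1 𝒜).pred g}
  zero_mem' := by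
    rw [Set.mem_ofPred_eq, isLocFrac1_iff]
    intro x hx
    refine ⟨U, hx, le_rfl, 0, 0, 1, zero_mem _, SetLike.GradedOne.one_mem, fun y hy _ => ⟨?_, ?_⟩⟩
    · exact fun h => (ProjectiveSpectrum.isPrime y).ne_top (Ideal.eq_top_of_isUnit_mem _ h isUnit_one)
    · simp
  add_mem' := by
    intro g h hg hh
    rw [Set.mem_ofPred_eq, isLocFrac1_iff] at *
    intro x hx
    obtain ⟨V, hxV, hVU, n, a, b, ha, hb, hab⟩ := hg x hx
    obtain ⟨V', hxV', hVU', n', a', b', ha', hb', hab'⟩ := hh x hx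
    refine ⟨V ⊓ V', ⟨hxV, hxV'⟩, inf_le_left.trans hVU, n + n', a * b' + b * a', b * b', ?_, ?_,
      fun y hy hU => ?_⟩
    · have h1 : a * b' ∈ 𝒜 ((n + 1) + n') := SetLike.mul_mem_graded ha hb'
      have h2 : b * a' ∈ 𝒜 (n + (n' + 1)) := SetLike.mul_mem_graded hb ha'
      rw [show n + 1 + n' = n + n' + 1 by ring] at h1
      rw [← add_assoc] at h2
      exact add_mem h1 h2
    · exact SetLike.mul_mem_graded hb hb'
    · obtain ⟨h1, h2⟩ := hab y hy.1 hU
      obtain ⟨h3, h4⟩ := hab' y hy.2 hU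
      refine ⟨fun h => ?_, ?_⟩
      · exact ((ProjectiveSpectrum.isPrime y).mem_or_mem h).elim h1 h3
      · rw [Pi.add_apply, h2, h4]
        have hb0 : algebraMap A (FractionRing A) b ≠ 0 := by
          intro h0
          apply h1
          rw [(IsFractionRing.injective A (FractionRing A)) (h0.trans (map_zero _).symm)]
          exact zero_mem _
        have hb0' : algebraMap A (FractionRing A) b' ≠ 0 := by
          intro h0
          apply h3
          rw [(IsFractionRing.injective A (FractionRing A)) (h0.trans (map_zero _).symm)]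
          exact zero_mem _
        rw [map_add, map_mul, map_mul, map_mul]
        field_simp
  neg_mem' := by
    intro g hg
    rw [Set.mem_ofPred_eq, isLocFrac1_iff] at *
    intro x hx
    obtain ⟨V, hxV, hVU, n, a, b, ha, hb, hab⟩ := hg x hx
    refine ⟨V, hxV, hVU, n, -a, b, neg_mem ha, hb, fun y hy hU => ⟨(hab y hy hU).1, ?_⟩⟩
    rw [Pi.neg_apply, (hab y hy hU).2, map_neg, neg_div]

lemma mem_twSub {U : (Proj 𝒜).Opens} (g : U → FractionRing A) :
    g ∈ twSub 𝒜 U ↔ (isLocFrac1 𝒜).pred g := Iff.rfl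

/-- the presheaf of abelian groups `O(1)` -/
noncomputable def twPre : (Opens (Proj 𝒜).toPresheafedSpace)ᵒᵖ ⥤ Ab.{u} where
  obj U := AddCommGrpCat.of (twSub 𝒜 U.unop)
  map i := AddCommGrpCat.ofHom
    { toFun := fun g => ⟨fun x => g.1 (i.unop x), (isLocFrac1 𝒜).res i.unop g.1 g.2⟩
      map_zero' := rfl
      map_add' := fun _ _ => rfl }
  map_id _ := rfl
  map_comp _ _ := rfl

/-- comparison with the sheaf of types -/
noncomputable def twCompForget :
    twPre 𝒜 ⋙ forget Ab ≅ (TopCat.subsheafToTypes (isLocFrac1 𝒜)).1 :=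
  NatIso.ofComponents (fun _ => Iso.refl _) (by cat_disch)

lemma twPre_isSheaf : TopCat.Presheaf.IsSheaf (twPre 𝒜) :=
  (TopCat.Presheaf.isSheaf_iff_isSheaf_comp (forget Ab) _).mpr
    (TopCat.Presheaf.isSheaf_of_iso (twCompForget 𝒜).symm
      (TopCat.subsheafToTypes (isLocFrac1 𝒜)).property)

lemma smul_mem_twSub {U : (Proj 𝒜).Opens} (s : Γ(Proj 𝒜, U)) {g : U → FractionRing A}
    (hg : g ∈ twSub 𝒜 U) : (fun x => ev x.1 x.2 s * g x) ∈ twSub 𝒜 U := by
  rw [mem_twSub, isLocFrac1_iff] at *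
  intro x hx
  obtain ⟨V, hxV, hVU, n, a, b, ha, hb, hab⟩ := hg x hx
  obtain ⟨V', hxV', hVU', n', a', b', ha', hb', hab'⟩ := exists_frac s x hx
  refine ⟨V ⊓ V', ⟨hxV, hxV'⟩, inf_le_left.trans hVU, n' + n, a' * a, b' * b, ?_, ?_,
      fun y hy hU => ?_⟩
  · have h1 : a' * a ∈ 𝒜 (n' + (n + 1)) := SetLike.mul_mem_graded ha' ha
    rwa [← add_assoc] at h1
  · exact SetLike.mul_mem_graded hb' hb
  · obtain ⟨h1, h2⟩ := hab y hy.1 hU
    obtain ⟨h3, h4⟩ := hab' y hy.2 hU
    refine ⟨fun h => ?_, ?_⟩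
    · exact ((ProjectiveSpectrum.isPrime y).mem_or_mem h).elim h3 h1
    · change ev y _ s * g ⟨y, hU⟩ = _
      rw [h2, h4, map_mul, map_mul, div_mul_div_comm]

noncomputable instance twModule (U : (Opens (Proj 𝒜).toPresheafedSpace)ᵒᵖ) :
    Module ((Proj 𝒜).ringCatSheaf.obj.obj U) ((twPre 𝒜).obj U) where
  smul s g := ⟨fun x => ev x.1 x.2 s * g.1 x, smul_mem_twSub 𝒜 s g.2⟩
  one_smul g := by
    apply Subtype.ext
    funext x
    change ev x.1 x.2 1 * g.1 x = _
    rw [map_one, one_mul]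
  mul_smul s t g := by
    apply Subtype.ext
    funext x
    exact (congrArg (· * g.1 x) ((ev x.1 x.2).map_mul s t)).trans (mul_assoc _ _ _)
  smul_zero s := by
    apply Subtype.ext
    funext x
    change ev x.1 x.2 s * 0 = 0
    rw [mul_zero]
  smul_add s g h := by
    apply Subtype.ext
    funext x
    change ev x.1 x.2 s * (g.1 x + h.1 x) = ev x.1 x.2 s * g.1 x + ev x.1 x.2 s * h.1 x
    rw [mul_add]
  add_smul s t g := by
    apply Subtype.ext
    funext x
    exact (congrArg (· * g.1 x) ((ev x.1 x.2).map_add s t)).trans (add_mul _ _ _)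
  zero_smul g := by
    apply Subtype.ext
    funext x
    change ev x.1 x.2 0 * g.1 x = 0
    rw [map_zero, zero_mul]

/-- the twisting sheaf `O(1)` -/
noncomputable def tw : (Proj 𝒜).Modules :=
  ⟨PresheafOfModules.ofPresheaf (R := (Proj 𝒜).ringCatSheaf.obj) (twPre 𝒜) (fun _ _ _ _ _ => rfl),
    twPre_isSheaf 𝒜⟩

end Pool.Agent.Helper17.Strange
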