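import Pool.Agent.Helper17.Strange.AmpleDef
import Pool.Agent.Helper17.Strange.Twist

/-!
`O(1)` is an ample line bundle.
-/

set_option autoImplicit false

open AlgebraicGeometry CategoryTheory TopologicalSpace Opposite HomogeneousLocalization

universe u

namespace Pool.Agent.Helper17.Strange

variable {A : Type u} [CommRing A] [IsDomain A] {σ : Type*} [SetLike σ A] [AddSubgroupClass σ A]
  {𝒜 : ℕ → σ} [GradedRing 𝒜]

lemma algebraMap_ne_zero_of_notMem (y : Proj 𝒜) {b : A} (hb : b ∉ y.asHomogeneousIdeal) :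
    algebraMap A (FractionRing A) b ≠ 0 := by
  intro h0
  apply hb
  rw [(IsFractionRing.injective A (FractionRing A)) (h0.trans (map_zero _).symm)]
  exact zero_mem _

/-- the value of a section of `O(1)` -/
def tev {U : (Proj 𝒜).Opens} (g : Γ(tw 𝒜, U)) (x : Proj 𝒜) (hx : x ∈ U) : FractionRing A :=
  Subtype.val (p := fun g : U → FractionRing A => g ∈ twSub 𝒜 U) g ⟨x, hx⟩

lemma tev_ext {U : (Proj 𝒜).Opens} {g h : Γ(tw 𝒜, U)} (H : ∀ x hx, tev g x hx = tev h x hx) :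
    g = h := by
  apply Subtype.ext
  funext x
  exact H x.1 x.2

lemma tev_smul {U : (Proj 𝒜).Opens} (f : Γ(Proj 𝒜, U)) (g : Γ(tw 𝒜, U)) (x : Proj 𝒜)
    (hx : x ∈ U) : tev (f • g) x hx = ev x hx f * tev g x hx := rfl

lemma tev_add {U : (Proj 𝒜).Opens} (f g : Γ(tw 𝒜, U)) (x : Proj 𝒜)
    (hx : x ∈ U) : tev (f + g) x hx = tev f x hx + tev g x hx := rfl

lemma tev_res {U V : (Proj 𝒜).Opens} (i : V ⟶ U) (g : Γ(tw 𝒜, U)) (x : Proj 𝒜)
    (hx : x ∈ V) : tev ((tw 𝒜).presheaf.map i.op g) x hx = tev g x (i.le hx) := rfl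

lemma exists_tfrac {U : (Proj 𝒜).Opens} (g : Γ(tw 𝒜, U)) (x : Proj 𝒜) (hx : x ∈ U) :
    ∃ V : (Proj 𝒜).Opens, x ∈ V ∧ ∃ _ : V ≤ U, ∃ (i : ℕ) (a b : A), a ∈ 𝒜 (i + 1) ∧ b ∈ 𝒜 i ∧
      ∀ (y : Proj 𝒜) (_ : y ∈ V) (hU : y ∈ U), b ∉ y.asHomogeneousIdeal ∧
        tev g y hU = algebraMap A (FractionRing A) a / algebraMap A (FractionRing A) b :=
  (isLocFrac1_iff _).1 (Subtype.prop (p := fun g : U → FractionRing A => g ∈ twSub 𝒜 U) g) x hx

lemma tev_eq_gen (h : ¬ (HomogeneousIdeal.irrelevant 𝒜) ≤ ⊥) {U : (Proj 𝒜).Opens} (x : Proj 𝒜)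
    (hx : x ∈ U) (g : Γ(tw 𝒜, U)) : tev g x hx = tev g (gen h) (gen_mem h hx) := by
  obtain ⟨V, hxV, hVU, n, a, b, ha, hb, hab⟩ := exists_tfrac g x hx
  rw [(hab x hxV hx).2, (hab (gen h) (gen_mem h hxV) (gen_mem h hx)).2]

/-- the global section of `O(1)` given by an element of degree one -/
noncomputable def tglob (a : A) (ha : a ∈ 𝒜 1) : Γ(tw 𝒜, ⊤) :=
  show twSub 𝒜 ⊤ from ⟨fun _ => algebraMap A (FractionRing A) a, by
    rw [mem_twSub, isLocFrac1_iff]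
    intro x hx
    refine ⟨⊤, hx, le_rfl, 0, a, 1, ha, SetLike.GradedOne.one_mem, fun y hy _ => ⟨?_, ?_⟩⟩
    · exact fun h => (ProjectiveSpectrum.isPrime y).ne_top (Ideal.eq_top_of_isUnit_mem _ h isUnit_one)
    · simp⟩

lemma tev_tglob (a : A) (ha : a ∈ 𝒜 1) (x : Proj 𝒜) (hx : x ∈ (⊤ : (Proj 𝒜).Opens)) :
    tev (tglob a ha) x hx = algebraMap A (FractionRing A) a := rfl

lemma isFrame_tglob (h : ¬ (HomogeneousIdeal.irrelevant 𝒜) ≤ ⊥) (a : A) (ha : a ∈ 𝒜 1) :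
    IsFrame (tw 𝒜) (Proj.basicOpen 𝒜 a)
      ((tw 𝒜).presheaf.map (homOfLE le_top).op (tglob a ha)) := by
  intro V hV
  by_cases hne : ∃ x, x ∈ V
  swap
  · push Not at hne
    constructor
    · intro f g _
      apply Subtype.ext
      funext x
      exact (hne x.1 x.2).elim
    · intro g
      refine ⟨0, ?_⟩
      apply tev_ext
      intro x hx
      exact (hne x hx).elim
  obtain ⟨x0, hx0⟩ := hne
  have ha0 : ∀ x ∈ V, algebraMap A (FractionRing A) a ≠ 0 := fun x hx =>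
    algebraMap_ne_zero_of_notMem x (hV hx)
  constructor
  · intro f g hfg
    apply ev_injective h x0 hx0
    have h1 := congrArg (fun t : Γ(tw 𝒜, V) => tev t x0 hx0) hfg
    change ev x0 hx0 f * algebraMap A (FractionRing A) a =
      ev x0 hx0 g * algebraMap A (FractionRing A) a at h1
    exact mul_right_cancel₀ (ha0 x0 hx0) h1
  · intro g
    obtain ⟨f, hf⟩ := exists_section V (tev g x0 hx0 / algebraMap A (FractionRing A) a) (by
      intro x hx
      rw [tev_eq_gen h x0 hx0 g, ← tev_eq_gen h x hx g]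
      obtain ⟨W, hxW, hWV, n, c, b, hc, hb, hcb⟩ := exists_tfrac g x hx
      refine ⟨n + 1, c, b * a, hc, SetLike.mul_mem_graded hb ha, ?_, ?_⟩
      · intro hmem
        exact ((ProjectiveSpectrum.isPrime x).mem_or_mem hmem).elim (hcb x hxW hx).1 (hV hx)
      · rw [(hcb x hxW hx).2, map_mul, div_div])
    refine ⟨f, ?_⟩
    apply tev_ext
    intro x hx
    change ev x hx f * algebraMap A (FractionRing A) a = _
    rw [hf, div_mul_cancel₀ _ (ha0 x hx), tev_eq_gen h x0 hx0 g, ← tev_eq_gen h x hx g]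

lemma nonvanishing_tglob (h : ¬ (HomogeneousIdeal.irrelevant 𝒜) ≤ ⊥)
    (hgen : ∀ x : Proj 𝒜, ∃ a ∈ 𝒜 1, a ∉ x.asHomogeneousIdeal) (a : A) (ha : a ∈ 𝒜 1) :
    nonvanishing (tw 𝒜) (tglob a ha) = Proj.basicOpen 𝒜 a := by
  apply le_antisymm
  · apply sSup_le
    intro V hV z hz
    obtain ⟨c, hc, hcz⟩ := hgen z
    obtain ⟨f, hf⟩ := (hV V le_rfl).2 ((tw 𝒜).presheaf.map (homOfLE le_top).op (tglob c hc))
    have h1 := congrArg (fun t : Γ(tw 𝒜, V) => tev t z hz) hf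
    change ev z hz f * algebraMap A (FractionRing A) a = algebraMap A (FractionRing A) c at h1
    obtain ⟨i, p, q, hp, hq, hqz, hpq⟩ := exists_frac_at f z hz
    have hq0 := algebraMap_ne_zero_of_notMem z hqz
    rw [hpq, div_mul_eq_mul_div, div_eq_iff hq0, ← map_mul, ← map_mul] at h1
    have h2 := (IsFractionRing.injective A (FractionRing A)) h1
    change a ∉ z.asHomogeneousIdeal
    intro haz
    have h3 : c * q ∈ z.asHomogeneousIdeal.toIdeal := by
      rw [← h2]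
      exact Ideal.mul_mem_left _ _ haz
    exact ((ProjectiveSpectrum.isPrime z).mem_or_mem h3).elim hcz hqz
  · apply le_sSup
    exact isFrame_tglob h a ha

/-- `O(1)` is ample -/
theorem tw_ample (h : ¬ (HomogeneousIdeal.irrelevant 𝒜) ≤ ⊥)
    (hgen : ∀ x : Proj 𝒜, ∃ a ∈ 𝒜 1, a ∉ x.asHomogeneousIdeal) :
    IsAmpleLineBundle (tw 𝒜) := by
  refine ⟨fun x => ?_, fun x => ?_⟩
  · obtain ⟨a, ha, hax⟩ := hgen x
    exact ⟨Proj.basicOpen 𝒜 a, hax, _, isFrame_tglob h a ha⟩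
  · obtain ⟨a, ha, hax⟩ := hgen x
    refine ⟨tglob a ha, ?_, ?_⟩
    · rw [nonvanishing_tglob h hgen]
      exact hax
    · rw [nonvanishing_tglob h hgen]
      exact Proj.isAffineOpen_basicOpen 𝒜 a ha one_pos

end Pool.Agent.Helper17.Strange
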