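import Pool.Agent.Helper17.Strange.Sections

/-!
Line bundles and ample line bundles on a scheme.
-/

set_option autoImplicit false

open AlgebraicGeometry CategoryTheory TopologicalSpace Opposite

universe u

namespace Pool.Agent.Helper17.Strange

variable {X : Scheme.{u}}

/-- The section `e` of the `𝒪_X`-module `E` over the open set `U` is a frame of `E` over `U`: for all
open subsets `V` of `U` the map `f ↦ f e` from `Γ(X, V)` to `Γ(E, V)` is bijective. So `e` is a free
generator of `E` over `U`. -/
def IsFrame (E : X.Modules) (U : X.Opens) (e : Γ(E, U)) : Prop :=
  ∀ (V : X.Opens) (h : V ≤ U), Function.Bijective fun f : Γ(X, V) => (f • secRestr h e : Γ(E, V))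

/-- `E` is a line bundle (a locally free `𝒪_X`-module of rank one): every point has an open
neighbourhood over which `E` has a frame consisting of one section. -/
def IsLineBundle (E : X.Modules) : Prop :=
  ∀ x : X, ∃ (U : X.Opens) (_ : x ∈ U) (e : Γ(E, U)), IsFrame E U e

/-- For a global section `t` of a line bundle `E`, the open set `X_t` of the points at which `t`
does not vanish, i.e. the union of all open sets on which `t` is a frame of `E`. -/
def nonvanishing (E : X.Modules) (t : Γ(E, ⊤)) : X.Opens :=
  sSup {U : X.Opens | IsFrame E U (secRestr le_top t)}

/-- `E` is a line bundle and the sets `X_t`, for those global sections `t` of `E` for which `X_t` is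
affine, cover `X`. For a quasi-compact scheme `X` this implies that `E` is ample: a line bundle `E` is
ample if and only if the affine sets of the form `X_t`, where `t` is a global section of a tensor power
`E ^ n`, `n ≥ 1`, cover `X`; here `n = 1` suffices at all points. -/
def IsAmpleLineBundle (E : X.Modules) : Prop :=
  IsLineBundle E ∧ ∀ x : X, ∃ t : Γ(E, ⊤), x ∈ nonvanishing E t ∧ IsAffineOpen (nonvanishing E t)

end Pool.Agent.Helper17.Strange
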