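import Pool.Agent.Helper17.Strange.Tangent
import Pool.Agent.Helper17.Strange.Twist

/-!
The structure morphism of `Proj 𝒜` and the constant sections.
-/

set_option autoImplicit false

open AlgebraicGeometry CategoryTheory TopologicalSpace Opposite HomogeneousLocalization

universe u

namespace Pool.Agent.Helper17.Strange

lemma aux_top (X : Scheme.{u}) (U : X.Opens) (e : U = ⊤) :
    U.topIso.inv ≫ ((X.isoOfEq e).inv).appTop ≫ X.topIso.inv.appTop =
      X.presheaf.map (homOfLE e.ge).op := by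
  subst e
  have h1 : (X.isoOfEq (rfl : (⊤ : X.Opens) = ⊤)).inv = 𝟙 _ := by
    simp
  rw [h1, Scheme.Hom.id_appTop, Category.id_comp]
  have h2 : (⊤ : X.Opens).topIso.inv = (⊤ : X.Opens).ι.appTop := by
    rw [Scheme.Opens.ι_appTop]
    rfl
  rw [h2, ← Scheme.Hom.comp_appTop, Scheme.toIso_inv_ι, Scheme.Hom.id_appTop]
  exact (X.presheaf.map_id _).symm

section
variable {A : Type u} [CommRing A] {σ : Type*} [SetLike σ A] [AddSubgroupClass σ A]
  (𝒜 : ℕ → σ) [GradedRing 𝒜]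

lemma toSpecZero_appTop : (Scheme.ΓSpecIso (.of (𝒜 0))).inv ≫ (Proj.toSpecZero 𝒜).appTop =
    CommRingCat.ofHom (fromZeroRingHom 𝒜 (Submonoid.powers 1)) ≫ Proj.awayToSection 𝒜 1 ≫
      (Proj 𝒜).presheaf.map (homOfLE (Proj.basicOpen_one 𝒜).ge).op := by
  rw [Iso.inv_comp_eq, Proj.toSpecZero]
  simp only [Scheme.Hom.comp_appTop, Category.assoc]
  have h := Proj.basicOpenToSpec_app_top 𝒜 1
  change (Proj.basicOpenToSpec 𝒜 1).appTop = _ at h
  rw [h]
  simp only [Category.assoc]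
  rw [Scheme.ΓSpecIso_naturality_assoc]
  rw [aux_top (Proj 𝒜) _ (Proj.basicOpen_one 𝒜)]
end

section
variable {k : Type u} [CommRing k] {A : Type u} [CommRing A] [Algebra k A]
  (𝒜 : ℕ → Submodule k A) [GradedAlgebra 𝒜]

/-- The structure morphism `Proj 𝒜 ⟶ Spec k` for a graded `k`-algebra. -/
noncomputable def strMor : Proj 𝒜 ⟶ Spec (.of k) :=
  Proj.toSpecZero 𝒜 ≫ Spec.map (CommRingCat.ofHom (algebraMap k (𝒜 0)))

lemma strMor_appTop : (Scheme.ΓSpecIso (.of k)).inv ≫ (strMor 𝒜).appTop =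
    CommRingCat.ofHom (algebraMap k (𝒜 0)) ≫
    CommRingCat.ofHom (fromZeroRingHom 𝒜 (Submonoid.powers 1)) ≫ Proj.awayToSection 𝒜 1 ≫
      (Proj 𝒜).presheaf.map (homOfLE (Proj.basicOpen_one 𝒜).ge).op := by
  rw [strMor, Scheme.Hom.comp_appTop, ← Scheme.ΓSpecIso_inv_naturality_assoc, toSpecZero_appTop]

variable [IsDomain A]

lemma ev_const {U : (Proj 𝒜).Opens} (x : Proj 𝒜) (hx : x ∈ U) (c : k) :
    ev x hx (const (strMor 𝒜) U c) = algebraMap A (FractionRing A) (algebraMap k A c) := by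
  have h : const (strMor 𝒜) U c = (Proj 𝒜).presheaf.map (homOfLE le_top).op
      ((Proj 𝒜).presheaf.map (homOfLE (Proj.basicOpen_one 𝒜).ge).op
        (Proj.awayToSection 𝒜 1 (fromZeroRingHom 𝒜 (Submonoid.powers 1)
          (algebraMap k (𝒜 0) c)))) := by
    have h2 := congrArg (fun g : CommRingCat.of k ⟶ Γ(Proj 𝒜, ⊤) =>
      (Proj 𝒜).presheaf.map (homOfLE le_top : U ⟶ ⊤).op (g c)) (strMor_appTop 𝒜)
    exact h2
  rw [h]
  refine (toFrac_mk 𝒜 x _).trans ?_
  simp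

end

end Pool.Agent.Helper17.Strange
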