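import Pool.Agent.Helper17.Strange.Geom

/-!
The quadric `ω² = x₀x₁ + x₂x₃` is smooth of relative dimension three.
-/

set_option autoImplicit false
set_option linter.unusedSectionVars false

open AlgebraicGeometry CategoryTheory TopologicalSpace Opposite HomogeneousLocalization MvPolynomial

universe u

namespace Pool.Agent.Helper17.Strange

section poly

variable (k : Type u) [CommRing k]

/-- the presentation of a polynomial ring without relations -/
noncomputable def polyPres (n : ℕ) :
    Algebra.SubmersivePresentation k (MvPolynomial (Fin n) k) (Fin n) PEmpty.{1} where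
  toGenerators := Algebra.Generators.mvPolynomial k (Fin n)
  relation := PEmpty.elim
  span_range_relation_eq_ker := by
    rw [Algebra.Generators.ker_mvPolynomial]
    simp
  map := PEmpty.elim
  map_inj := fun i => i.elim
  jacobian_isUnit := by
    classical
    rw [Algebra.PreSubmersivePresentation.jacobian_eq_jacobiMatrix_det]
    simp

theorem stdSmooth_poly (n : ℕ) :
    Algebra.IsStandardSmoothOfRelativeDimension n k (MvPolynomial (Fin n) k) := by
  apply (polyPres k n).isStandardSmoothOfRelativeDimension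
  simp [Algebra.Presentation.dimension]

end poly

section scale

variable {k : Type u} [CommRing k] {L : Type u} [CommRing L] {m : ℕ}

lemma scale_poly (g h : MvPolynomial (Fin m) k →+* L) (u : L) (hc : ∀ c, g (C c) = h (C c))
    (hg : ∀ l, g (X l) = u * h (X l)) {n : ℕ} {p : MvPolynomial (Fin m) k}
    (hp : p.IsHomogeneous n) : g p = u ^ n * h p := by
  conv_lhs => rw [p.as_sum]
  conv_rhs => rw [p.as_sum]
  rw [map_sum, map_sum, Finset.mul_sum]
  refine Finset.sum_congr rfl fun d hd => ?_
  have hd' : ∑ i, d i = n := by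
    have h1 := hp (mem_support_iff.1 hd)
    rw [Finsupp.weight_apply, Finsupp.sum_fintype _ _ (by simp)] at h1
    simpa using h1
  rw [monomial_eq, map_mul, map_mul, Finsupp.prod_fintype _ _ (by simp), map_prod, map_prod, hc]
  simp only [map_pow, hg, mul_pow]
  rw [Finset.prod_mul_distrib, Finset.prod_pow_eq_pow_sum, hd']
  ring

end scale

section scaleQA

variable {k : Type u} [Field k] [CharP k 2] {L : Type u} [CommRing L]

lemma QA_eq (z : QA k) : z = (⟨z.re, 0⟩ : QA k) + ⟨z.im, 0⟩ * wA := by
  apply QuadraticAlgebra.ext <;> simp [wA]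

/-- the subring of polynomials in `x₀, …, x₃` -/
noncomputable def ofPoly : MvPolynomial (Fin 4) k →+* QA k :=
  algebraMap (MvPolynomial (Fin 4) k) (QA k)

lemma ofPoly_apply (p : MvPolynomial (Fin 4) k) : ofPoly p = (⟨p, 0⟩ : QA k) := rfl

lemma ofPoly_X (l : Fin 4) : ofPoly (X l) = (xA l : QA k) := rfl

lemma ofPoly_C (c : k) : ofPoly (C c) = algebraMap k (QA k) c := rfl

lemma scale_QA (g h : QA k →+* L) (u : L)
    (hc : ∀ c, g (algebraMap k (QA k) c) = h (algebraMap k (QA k) c))
    (hg : ∀ l, g (xA l) = u * h (xA l)) (hw : g wA = u * h wA) {n : ℕ} {z : QA k}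
    (hz : z ∈ gr k n) : g z = u ^ n * h z := by
  have hre : g (⟨z.re, 0⟩ : QA k) = u ^ n * h ⟨z.re, 0⟩ := by
    have := scale_poly (g.comp ofPoly) (h.comp ofPoly) u (fun c => hc c) (fun l => hg l)
      (p := z.re) (n := n) hz.1
    exact this
  rw [QA_eq z, map_add, map_add, map_mul, map_mul, hre, hw]
  cases n with
  | zero =>
    have h0 : z.im = 0 := im_eq_zero_of_mem hz
    have h1 : (⟨z.im, 0⟩ : QA k) = 0 := by rw [h0]; rfl
    rw [h1, map_zero, map_zero]
    ring
  | succ n =>
    have him : g (⟨z.im, 0⟩ : QA k) = u ^ n * h ⟨z.im, 0⟩ := by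
      have := scale_poly (g.comp ofPoly) (h.comp ofPoly) u (fun c => hc c) (fun l => hg l)
        (p := z.im) (n := n) hz.2
      exact this
    rw [him]
    ring

end scaleQA

section chart

variable {k : Type u} [CommRing k] {A : Type u} [CommRing A] [Algebra k A]
  (𝒜 : ℕ → Submodule k A) [GradedAlgebra 𝒜] {R : Type u} [CommRing R]

theorem chart_bijective {f : A} (hf : f ∈ 𝒜 1) (ψ₀ : A →+* R) (hψ : IsUnit (ψ₀ f))
    (Φ : R →+* Away 𝒜 f)
    (h1 : ∀ r, IsLocalization.Away.lift (S := Localization.Away f) f hψ ((Φ r).val) = r)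
    (h2 : ∀ (n : ℕ) (a : A), a ∈ 𝒜 n → (Φ (ψ₀ a)).val = Localization.mk a ⟨f ^ n, by use n⟩) :
    Function.Bijective Φ := by
  constructor
  · intro r s hrs
    rw [← h1 r, ← h1 s, hrs]
  · intro z
    obtain ⟨n, a, ha, rfl⟩ := Away.mk_surjective 𝒜 hf z
    refine ⟨ψ₀ a, ?_⟩
    apply HomogeneousLocalization.val_injective
    rw [h2 (n • 1) a ha, Away.val_mk]
    simp

/-- constants in a chart -/
noncomputable def toAway (f : A) : k →+* Away 𝒜 f :=
  (fromZeroRingHom 𝒜 (Submonoid.powers f)).comp (algebraMap k (𝒜 0))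

lemma lift_mk {f : A} (ψ₀ : A →+* R) (hψ : ψ₀ f = 1) (n : ℕ) (a : A) :
    IsLocalization.Away.lift (S := Localization.Away f) f (hψ ▸ isUnit_one : IsUnit (ψ₀ f))
      (Localization.mk a ⟨f ^ n, by use n⟩) = ψ₀ a := by
  rw [Localization.mk_eq_mk', IsLocalization.Away.lift, IsLocalization.lift_mk'_spec]
  simp [hψ]

lemma val_toAway (f : A) (c : k) : (toAway 𝒜 f c).val = Localization.mk (algebraMap k A c) 1 := rfl

end chart

section charts

variable (k : Type u) [Field k] [CharP k 2]

/-- the index `i'` with `qf = x_i x_i' + x_j x_j'` -/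
def p1 : Fin 4 → Fin 4 := ![1, 0, 3, 2]
/-- the index `j` with `qf = x_i x_i' + x_j x_j'` -/
def p2 : Fin 4 → Fin 4 := ![2, 2, 0, 0]
/-- the index `j'` with `qf = x_i x_i' + x_j x_j'` -/
def p3 : Fin 4 → Fin 4 := ![3, 3, 1, 1]

/-- the values of the coordinates `x_l / x_i` in the chart -/
noncomputable def tgt (i l : Fin 4) : MvPolynomial (Fin 3) k :=
  if l = i then 1 else if l = p1 i then X 0 ^ 2 - X 1 * X 2 else if l = p2 i then X 1 else X 2

lemma tgt_qf (i : Fin 4) : eval₂Hom C (tgt k i) (qf k) = X 0 * X 0 := by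
  fin_cases i <;> simp [qf, tgt, p1, p2] <;> ring

/-- dehomogenization -/
noncomputable def deh (i : Fin 4) : QA k →+* MvPolynomial (Fin 3) k where
  toFun z := eval₂Hom C (tgt k i) z.re + eval₂Hom C (tgt k i) z.im * X 0
  map_one' := by
    rw [QuadraticAlgebra.re_one, QuadraticAlgebra.im_one, map_one, map_zero, zero_mul, add_zero]
  map_mul' z w := by
    rw [QuadraticAlgebra.re_mul, QuadraticAlgebra.im_mul]
    simp only [map_add, map_mul, tgt_qf, zero_mul, map_zero]
    ring
  map_zero' := by
    rw [QuadraticAlgebra.re_zero, QuadraticAlgebra.im_zero, map_zero, zero_mul, add_zero]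
  map_add' z w := by
    simp only [QuadraticAlgebra.re_add, QuadraticAlgebra.im_add, map_add]
    ring

variable {k}

lemma deh_apply (i : Fin 4) (z : QA k) :
    deh k i z = eval₂Hom C (tgt k i) z.re + eval₂Hom C (tgt k i) z.im * X 0 := rfl

lemma deh_xA (i l : Fin 4) : deh k i (xA l) = tgt k i l := by
  rw [deh_apply]
  simp [xA]

lemma deh_wA (i : Fin 4) : deh k i wA = X 0 := by
  rw [deh_apply]
  simp [wA]

lemma deh_C (i : Fin 4) (c : k) : deh k i (algebraMap k (QA k) c) = C c := by
  rw [deh_apply, algebraMap_QA]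
  simp

lemma deh_self (i : Fin 4) : deh k i (xA i) = 1 := by
  rw [deh_xA, tgt, if_pos rfl]

lemma wA_sq' (i : Fin 4) :
    wA * wA = xA i * xA (p1 i) + xA (p2 i) * xA (k := k) (p3 i) := by
  rw [wA_sq]
  fin_cases i <;> simp [p1, p2, p3] <;> ring

/-- fraction of degree zero -/
noncomputable def fracOne (i : Fin 4) (a : QA k) (ha : a ∈ gr k 1) : Away (gr k) (xA (k := k) i) :=
  Away.mk (gr k) (xA_mem i) 1 a (by simpa using ha)

lemma val_fracOne (i : Fin 4) (a : QA k) (ha : a ∈ gr k 1) :
    (fracOne i a ha).val = Localization.mk a ⟨xA i ^ 1, by use 1⟩ := rfl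

variable (k) in
/-- the chart -/
noncomputable def chartHom (i : Fin 4) : MvPolynomial (Fin 3) k →+* Away (gr k) (xA (k := k) i) :=
  eval₂Hom (toAway (gr k) (xA i))
    ![fracOne i wA wA_mem, fracOne i (xA (p2 i)) (xA_mem _), fracOne i (xA (p3 i)) (xA_mem _)]

lemma chartHom_C (i : Fin 4) (c : k) : chartHom k i (C c) = toAway (gr k) (xA i) c := by
  simp [chartHom]

lemma chartHom_X0 (i : Fin 4) : chartHom k i (X 0) = fracOne i wA wA_mem := by
  simp [chartHom]

lemma chartHom_X1 (i : Fin 4) : chartHom k i (X 1) = fracOne i (xA (p2 i)) (xA_mem _) := by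
  simp [chartHom]

lemma chartHom_X2 (i : Fin 4) : chartHom k i (X 2) = fracOne i (xA (p3 i)) (xA_mem _) := by
  simp [chartHom]

/-- inverse of the coordinate `x_i` -/
noncomputable def invx (i : Fin 4) : Localization.Away (xA (k := k) i) :=
  Localization.mk 1 ⟨xA i ^ 1, by use 1⟩

lemma invx_mul (i : Fin 4) :
    invx (k := k) i * algebraMap (QA k) (Localization.Away (xA i)) (xA i) = 1 := by
  rw [← Localization.mk_one_eq_algebraMap, invx, Localization.mk_mul, ← Localization.mk_one,
    Localization.mk_eq_mk_iff, Localization.r_iff_exists]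
  exact ⟨1, by simp⟩

lemma mk_eq_invx (i : Fin 4) (n : ℕ) (a : QA k) :
    (Localization.mk a ⟨xA i ^ n, by use n⟩ : Localization.Away (xA (k := k) i)) =
      invx i ^ n * algebraMap (QA k) (Localization.Away (xA i)) a := by
  rw [invx, Localization.mk_pow, ← Localization.mk_one_eq_algebraMap, Localization.mk_mul,
    Localization.mk_eq_mk_iff, Localization.r_iff_exists]
  exact ⟨1, by simp⟩

lemma eq_or (i l : Fin 4) : l = i ∨ l = p1 i ∨ l = p2 i ∨ l = p3 i := by
  fin_cases i <;> fin_cases l <;> simp [p1, p2, p3]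

lemma tgt_p1 (i : Fin 4) : tgt k i (p1 i) = X 0 ^ 2 - X 1 * X 2 := by
  fin_cases i <;> simp [tgt, p1]

lemma tgt_p2 (i : Fin 4) : tgt k i (p2 i) = X 1 := by
  fin_cases i <;> simp [tgt, p1, p2]

lemma tgt_p3 (i : Fin 4) : tgt k i (p3 i) = X 2 := by
  fin_cases i <;> simp [tgt, p1, p2, p3]

theorem chart_bij (i : Fin 4) : Function.Bijective (chartHom k i) := by
  refine chart_bijective (gr k) (xA_mem i) (deh k i) (by rw [deh_self]; exact isUnit_one)
    (chartHom k i) ?_ ?_
  · intro r
    have h : ((IsLocalization.Away.lift (S := Localization.Away (xA (k := k) i)) (xA i)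
        (by rw [deh_self]; exact isUnit_one : IsUnit (deh k i (xA i)))).comp
        ((algebraMap (Away (gr k) (xA (k := k) i)) (Localization.Away (xA i))).comp
          (chartHom k i))) = RingHom.id _ := by
      apply MvPolynomial.ringHom_ext
      · intro c
        simp only [RingHom.comp_apply, chartHom_C, RingHom.id_apply,
          HomogeneousLocalization.algebraMap_apply, val_toAway]
        have := lift_mk (deh k i) (deh_self i) 0 (algebraMap k (QA k) c)
        rw [deh_C] at this
        convert this using 3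
        exact Subtype.ext (pow_zero _).symm
      · intro l
        fin_cases l
        · simp only [RingHom.comp_apply, Fin.zero_eta, chartHom_X0, RingHom.id_apply,
            HomogeneousLocalization.algebraMap_apply, val_fracOne]
          have := lift_mk (deh k i) (deh_self i) 1 wA
          exact this.trans (deh_wA i)
        · simp only [RingHom.comp_apply, Fin.mk_one, chartHom_X1, RingHom.id_apply,
            HomogeneousLocalization.algebraMap_apply, val_fracOne]
          have := lift_mk (deh k i) (deh_self i) 1 (xA (p2 i))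
          exact this.trans ((deh_xA i _).trans (tgt_p2 i))
        · simp only [RingHom.comp_apply, Fin.reduceFinMk, chartHom_X2, RingHom.id_apply,
            HomogeneousLocalization.algebraMap_apply, val_fracOne]
          have := lift_mk (deh k i) (deh_self i) 1 (xA (p3 i))
          exact this.trans ((deh_xA i _).trans (tgt_p3 i))
    exact congrArg (fun g => g r) h
  · intro n a ha
    rw [mk_eq_invx]
    set L := Localization.Away (xA (k := k) i)
    set v := algebraMap (Away (gr k) (xA (k := k) i)) L
    set h := algebraMap (QA k) L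
    have hv0 : v (chartHom k i (X 0)) = invx i * h wA := by
      rw [chartHom_X0]
      have := mk_eq_invx i 1 (wA (k := k))
      exact this.trans (by rw [pow_one])
    have hv1 : v (chartHom k i (X 1)) = invx i * h (xA (p2 i)) := by
      rw [chartHom_X1]
      have := mk_eq_invx (k := k) i 1 (xA (p2 i))
      exact this.trans (by rw [pow_one])
    have hv2 : v (chartHom k i (X 2)) = invx i * h (xA (p3 i)) := by
      rw [chartHom_X2]
      have := mk_eq_invx (k := k) i 1 (xA (p3 i))
      exact this.trans (by rw [pow_one])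
    have hinv : invx i * h (xA i) = 1 := invx_mul i
    refine scale_QA (v.comp ((chartHom k i).comp (deh k i))) h (invx i) ?_ ?_ ?_ ha
    · intro c
      simp only [RingHom.comp_apply, deh_C, chartHom_C]
      rfl
    · intro l
      simp only [RingHom.comp_apply, deh_xA]
      rcases eq_or i l with rfl | rfl | rfl | rfl
      · rw [tgt, if_pos rfl, map_one, map_one, hinv]
      · rw [tgt_p1, map_sub, map_sub, map_pow, map_pow, map_mul, map_mul, hv0, hv1, hv2]
        have hw : h wA * h wA = h (xA i) * h (xA (p1 i)) + h (xA (p2 i)) * h (xA (p3 i)) := by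
          rw [← map_mul, ← map_mul, ← map_mul, ← map_add, ← wA_sq' i]
        linear_combination (invx i) ^ 2 * hw + (invx i * h (xA (p1 i))) * hinv
      · rw [tgt_p2, hv1]
      · rw [tgt_p3, hv2]
    · simp only [RingHom.comp_apply, deh_wA, hv0]

theorem stdSmooth_toAway (i : Fin 4) :
    RingHom.IsStandardSmoothOfRelativeDimension 3 (toAway (gr k) (xA (k := k) i)) := by
  have h1 : RingHom.IsStandardSmoothOfRelativeDimension 3
      (C : k →+* MvPolynomial (Fin 3) k) := by
    have := stdSmooth_poly k 3
    exact (RingHom.isStandardSmoothOfRelativeDimension_algebraMap 3).2 this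
  have h2 := (RingHom.isStandardSmoothOfRelativeDimension_respectsIso (n := 3)).1
    (C : k →+* MvPolynomial (Fin 3) k) (RingEquiv.ofBijective _ (chart_bij (k := k) i)) h1
  convert h2 using 1
  ext c
  exact (congrArg _ (chartHom_C i c)).symm

lemma awayι_strMor' {k : Type u} [CommRing k] {A : Type u} [CommRing A] [Algebra k A]
    (𝒜 : ℕ → Submodule k A) [GradedAlgebra 𝒜] {m : ℕ} {f : A} (hf : f ∈ 𝒜 m) (hm : 0 < m) :
    Proj.awayι 𝒜 f hf hm ≫ strMor 𝒜 = Spec.map (CommRingCat.ofHom (toAway 𝒜 f)) := by
  rw [strMor, Proj.awayι_toSpecZero_assoc, ← Spec.map_comp]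
  rfl

lemma awayι_strMor {A : Type u} [CommRing A] [Algebra k A] (𝒜 : ℕ → Submodule k A)
    [GradedAlgebra 𝒜] {f : A} (hf : f ∈ 𝒜 1) :
    Proj.awayι 𝒜 f hf one_pos ≫ strMor 𝒜 = Spec.map (CommRingCat.ofHom (toAway 𝒜 f)) := by
  rw [strMor, Proj.awayι_toSpecZero_assoc, ← Spec.map_comp]
  rfl

lemma iSup_basicOpen_xA : ⨆ i : Fin 4, Proj.basicOpen (gr k) (xA i) = ⊤ := by
  rw [eq_top_iff]
  intro x _
  obtain ⟨j, hj⟩ := hgen_QA' k x
  exact TopologicalSpace.Opens.mem_iSup.2 ⟨j, hj⟩

theorem isZariskiLocalAtSource_of (P : MorphismProperty Scheme.{u})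
    (Q : (∀ {R S : Type u} [CommRing R] [CommRing S], (R →+* S) → Prop))
    [HasRingHomProperty P Q] : IsZariskiLocalAtSource P := inferInstance

instance local_smooth3 : IsZariskiLocalAtSource (@SmoothOfRelativeDimension.{u} 3) :=
  isZariskiLocalAtSource_of _
    (RingHom.Locally (RingHom.IsStandardSmoothOfRelativeDimension 3))

theorem respectsIso_of (P : MorphismProperty Scheme.{u})
    (Q : (∀ {R S : Type u} [CommRing R] [CommRing S], (R →+* S) → Prop))
    [HasRingHomProperty P Q] : MorphismProperty.RespectsIso P := inferInstance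

instance respects_smooth3 : MorphismProperty.RespectsIso (@SmoothOfRelativeDimension.{u} 3) :=
  respectsIso_of _
    (RingHom.Locally (RingHom.IsStandardSmoothOfRelativeDimension 3))

theorem smooth_quadric : SmoothOfRelativeDimension 3 (strMor (gr k)) := by
  rw [IsZariskiLocalAtSource.iff_of_iSup_eq_top (P := @SmoothOfRelativeDimension 3)
    (fun i : Fin 4 => Proj.basicOpen (gr k) (xA i)) iSup_basicOpen_xA]
  intro i
  have h1 : (Proj.basicOpen (gr k) (xA (k := k) i)).ι ≫ strMor (gr k) =
      (Proj.basicOpenIsoSpec (gr k) (xA i) (xA_mem i) one_pos).hom ≫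
        Spec.map (CommRingCat.ofHom (toAway (gr k) (xA i))) := by
    rw [← awayι_strMor (gr k) (xA_mem i), ← Proj.basicOpenIsoSpec_inv_ι]
    simp
  rw [h1, MorphismProperty.cancel_left_of_respectsIso (P := @SmoothOfRelativeDimension 3),
    HasRingHomProperty.Spec_iff (P := @SmoothOfRelativeDimension.{u} 3)
      (Q := RingHom.Locally (RingHom.IsStandardSmoothOfRelativeDimension 3))]
  exact RingHom.locally_of RingHom.isStandardSmoothOfRelativeDimension_respectsIso _
    (stdSmooth_toAway i)

end charts

end Pool.Agent.Helper17.Strange
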