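import Pool.Agent.Helper17.Strange.NonIso
import Pool.Agent.Helper17.Strange.Smooth

/-!
The closed immersion of the quadric into four dimensional projective space.
-/

set_option autoImplicit false
set_option linter.unusedSectionVars false

open AlgebraicGeometry CategoryTheory TopologicalSpace Opposite HomogeneousLocalization
open MvPolynomial (X C homogeneousSubmodule)

universe u

namespace Pool.Agent.Helper17.Strange

section general

variable {A : Type u} {B : Type u} [CommRing A] [CommRing B]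
  {σ τ : Type u} [SetLike σ A] [AddSubgroupClass σ A] [SetLike τ B] [AddSubgroupClass τ B]
  {𝒜 : ℕ → σ} {ℬ : ℕ → τ} [GradedRing 𝒜] [GradedRing ℬ]
  (f : 𝒜 →+*ᵍ ℬ) (hf : HomogeneousIdeal.irrelevant ℬ ≤ (HomogeneousIdeal.irrelevant 𝒜).map f)

lemma away_map_surjective {m : ℕ} {s : A} (hs : s ∈ 𝒜 m)
    (hsurj : ∀ n, ∀ b ∈ ℬ n, ∃ a ∈ 𝒜 n, f a = b) :
    Function.Surjective (Away.map f s) := by
  intro z
  obtain ⟨n, b, hb, rfl⟩ := Away.mk_surjective ℬ (f.2 hs) z
  obtain ⟨a, ha, rfl⟩ := hsurj _ b hb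
  refine ⟨Away.mk 𝒜 hs n a ha, ?_⟩
  simp

lemma isPullback_map {m : ℕ} {s : A} (hs : s ∈ 𝒜 m) (hm : 0 < m) :
    IsPullback (Proj.awayι ℬ (f s) (f.2 hs) hm) (Spec.map (CommRingCat.ofHom (Away.map f s)))
      (Proj.map f hf) (Proj.awayι 𝒜 s hs hm) := by
  refine (IsOpenImmersion.isPullback _ _ _ _ (Proj.awayι_comp_map f hf hm s hs) ?_).flip
  rw [Proj.opensRange_awayι, Proj.opensRange_awayι]
  rfl

theorem isClosedImmersion_map (hsurj : ∀ n, ∀ b ∈ ℬ n, ∃ a ∈ 𝒜 n, f a = b) :
    IsClosedImmersion (Proj.map f hf) := by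
  apply IsZariskiLocalAtTarget.of_openCover (P := @IsClosedImmersion)
    (Proj.affineOpenCover 𝒜).openCover
  rintro ⟨m, s⟩
  have hsq := isPullback_map f hf s.2 m.2
  change IsClosedImmersion (Limits.pullback.snd (Proj.map f hf) (Proj.awayι 𝒜 (s : A) s.2 m.2))
  have h2 : IsClosedImmersion (Spec.map (CommRingCat.ofHom (Away.map f (s : A)))) :=
    IsClosedImmersion.spec_of_surjective _ (away_map_surjective f s.2 hsurj)
  rw [← hsq.isoPullback_inv_snd]
  exact (MorphismProperty.cancel_left_of_respectsIso (P := @IsClosedImmersion) _ _).2 h2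

end general

section alg

variable {k : Type u} [CommRing k] {A : Type u} {B : Type u} [CommRing A] [CommRing B]
  [Algebra k A] [Algebra k B] {𝒜 : ℕ → Submodule k A} {ℬ : ℕ → Submodule k B}
  [GradedAlgebra 𝒜] [GradedAlgebra ℬ]
  (f : 𝒜 →+*ᵍ ℬ) (hf : HomogeneousIdeal.irrelevant ℬ ≤ (HomogeneousIdeal.irrelevant 𝒜).map f)

lemma toAway_map (hk : ∀ c : k, f (algebraMap k A c) = algebraMap k B c) (s : A) :
    (Away.map f s).comp (toAway 𝒜 s) = toAway ℬ (f s) := by
  ext c
  rw [val_toAway, ← hk]
  have h : toAway 𝒜 s c = HomogeneousLocalization.mk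
    ⟨0, algebraMap k (𝒜 0) c, ⟨1, SetLike.GradedOne.one_mem⟩, one_mem _⟩ := rfl
  rw [RingHom.comp_apply, h, Away.map, HomogeneousLocalization.map_mk,
    HomogeneousLocalization.val_mk]
  simp only [map_one]
  rfl

lemma map_strMor_aux (hk : ∀ c : k, f (algebraMap k A c) = algebraMap k B c) {m : ℕ} {s : A}
    (hs : s ∈ 𝒜 m) (hm : 0 < m) :
    Proj.awayι ℬ (f s) (f.2 hs) hm ≫ Proj.map f hf ≫ strMor 𝒜 =
      Proj.awayι ℬ (f s) (f.2 hs) hm ≫ strMor ℬ := by
  have h3 := awayι_strMor' ℬ (f.2 hs) hm
  rw [Proj.awayι_comp_map_assoc f hf hm s hs, awayι_strMor' 𝒜 hs hm, ← Spec.map_comp]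
  refine Eq.trans ?_ h3.symm
  rw [← CommRingCat.ofHom_comp, toAway_map f hk]

theorem map_strMor (hk : ∀ c : k, f (algebraMap k A c) = algebraMap k B c) :
    Proj.map f hf ≫ strMor 𝒜 = strMor ℬ :=
  (Proj.mapAffineOpenCover f hf).openCover.hom_ext _ _ fun s =>
    map_strMor_aux f hf hk s.2.2 s.1.2

end alg

section quadric

attribute [local instance] MvPolynomial.gradedAlgebra

variable (k : Type u) [Field k] [CharP k 2]

/-- the values of the five coordinates -/
noncomputable def coords : Fin 5 → QA k := ![xA 0, xA 1, xA 2, xA 3, wA]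

lemma coords_mem (l : Fin 5) : coords k l ∈ gr k 1 := by
  fin_cases l
  exacts [xA_mem 0, xA_mem 1, xA_mem 2, xA_mem 3, wA_mem]

lemma coords_castSucc (l : Fin 4) : coords k l.castSucc = xA l := by
  fin_cases l <;> rfl

/-- the surjection onto the coordinate ring -/
noncomputable def quo : MvPolynomial (Fin 5) k →ₐ[k] QA k := MvPolynomial.aeval (coords k)

lemma quo_mem {n : ℕ} {p : MvPolynomial (Fin 5) k} (hp : p ∈ homogeneousSubmodule (Fin 5) k n) :
    quo k p ∈ gr k n := by
  rw [p.as_sum, map_sum]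
  refine sum_mem fun d hd => ?_
  have hd' : ∑ i, d i = n := by
    have h1 := hp (MvPolynomial.mem_support_iff.1 hd)
    rw [Finsupp.weight_apply, Finsupp.sum_fintype _ _ (by simp)] at h1
    simpa using h1
  rw [MvPolynomial.monomial_eq, map_mul, Finsupp.prod_fintype _ _ (by simp), map_prod, quo,
    MvPolynomial.aeval_C, ← Algebra.smul_def]
  apply Submodule.smul_mem
  simp only [map_pow, MvPolynomial.aeval_X]
  have h2 := SetLike.prod_pow_mem_graded (gr k) (F := Finset.univ) (g := coords k) (i := fun _ => 1)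
    (fun i => d i) (fun l _ => coords_mem k l)
  simpa [hd'] using h2

/-- the surjection onto the coordinate ring, as a graded homomorphism -/
noncomputable def quoG : homogeneousSubmodule (Fin 5) k →+*ᵍ gr k where
  toRingHom := (quo k).toRingHom
  map_mem := quo_mem k

lemma quo_rename (p : MvPolynomial (Fin 4) k) :
    quo k (MvPolynomial.rename Fin.castSucc p) = ofPoly p := by
  rw [quo, MvPolynomial.aeval_rename]
  induction p using MvPolynomial.induction_on with
  | C a =>
    rw [MvPolynomial.aeval_C, ofPoly_C]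
  | add p q hp hq => rw [map_add, map_add, hp, hq]
  | mul_X p j hp =>
    rw [map_mul, map_mul, hp, MvPolynomial.aeval_X, ofPoly_X]
    congr 1
    exact coords_castSucc k j

lemma quo_surj (n : ℕ) (z : QA k) (hz : z ∈ gr k n) :
    ∃ p ∈ homogeneousSubmodule (Fin 5) k n, quo k p = z := by
  have hw : quo k (X 4) = wA := by
    rw [quo, MvPolynomial.aeval_X]
    rfl
  cases n with
  | zero =>
    refine ⟨MvPolynomial.rename Fin.castSucc z.re,
      MvPolynomial.IsHomogeneous.rename_isHomogeneous hz.1, ?_⟩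
    rw [quo_rename]
    exact QuadraticAlgebra.ext rfl (im_eq_zero_of_mem hz).symm
  | succ n =>
    refine ⟨MvPolynomial.rename Fin.castSucc z.re + MvPolynomial.rename Fin.castSucc z.im * X 4,
      add_mem (MvPolynomial.IsHomogeneous.rename_isHomogeneous hz.1)
        ((MvPolynomial.IsHomogeneous.rename_isHomogeneous hz.2).mul
          (MvPolynomial.isHomogeneous_X _ _)), ?_⟩
    rw [map_add, map_mul, quo_rename, quo_rename, hw]
    exact (QA_eq z).symm

lemma quo_irrelevant : HomogeneousIdeal.irrelevant (gr k) ≤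
    (HomogeneousIdeal.irrelevant (homogeneousSubmodule (Fin 5) k)).map (quoG k) := by
  classical
  intro z hz
  change z ∈ ((HomogeneousIdeal.irrelevant (homogeneousSubmodule (Fin 5) k)).map
    (quoG k)).toIdeal
  rw [← DirectSum.sum_support_decompose (gr k) z]
  refine Ideal.sum_mem _ fun n _ => ?_
  by_cases hn : n = 0
  · subst hn
    have : (DirectSum.decompose (gr k) z 0 : QA k) = 0 := by
      rw [← GradedRing.proj_apply]
      exact (HomogeneousIdeal.mem_irrelevant_iff _ _).1 hz
    rw [this]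
    exact zero_mem _
  · obtain ⟨p, hp, hpz⟩ := quo_surj k n _ (SetLike.coe_mem (DirectSum.decompose (gr k) z n))
    rw [← hpz]
    apply Ideal.mem_map_of_mem
    change p ∈ HomogeneousIdeal.irrelevant _
    rw [HomogeneousIdeal.mem_irrelevant_iff, GradedRing.proj_apply,
      DirectSum.decompose_of_mem_ne _ hp hn]

/-- the closed immersion into four dimensional projective space -/
noncomputable def quadricEmb : Proj (gr k) ⟶ Proj (homogeneousSubmodule (Fin 5) k) :=
  Proj.map (quoG k) (quo_irrelevant k)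

theorem isClosedImmersion_quadricEmb : IsClosedImmersion (quadricEmb k) :=
  isClosedImmersion_map _ _ (quo_surj k)

theorem quadricEmb_strMor :
    quadricEmb k ≫ strMor (homogeneousSubmodule (Fin 5) k) = strMor (gr k) :=
  map_strMor _ _ fun c => (quo k).commutes c

end quadric

end Pool.Agent.Helper17.Strange
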