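import Mathlib

/-!
Extension of a derivation to the fraction field.
-/

set_option autoImplicit false

universe u

namespace Pool.Agent.Helper17.Strange

variable {A : Type u} [CommRing A] [IsDomain A] (D : Derivation ℤ A A)

/-- `a ↦ a + ε D(a)` -/
noncomputable def psi : A →+* TrivSqZeroExt (FractionRing A) (FractionRing A) where
  toFun a := TrivSqZeroExt.inl (algebraMap A (FractionRing A) a) +
    TrivSqZeroExt.inr (algebraMap A (FractionRing A) (D a))
  map_one' := by
    simp
  map_mul' a b := by
    apply TrivSqZeroExt.ext
    · simp only [TrivSqZeroExt.fst_add, TrivSqZeroExt.fst_inl, TrivSqZeroExt.fst_inr,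
        TrivSqZeroExt.fst_mul, map_mul, add_zero]
    · simp only [TrivSqZeroExt.snd_add, TrivSqZeroExt.snd_inl, TrivSqZeroExt.snd_inr,
        TrivSqZeroExt.snd_mul, TrivSqZeroExt.fst_add, TrivSqZeroExt.fst_inl,
        TrivSqZeroExt.fst_inr, zero_add, add_zero, smul_eq_mul, Derivation.leibniz,
        MulOpposite.smul_eq_mul_unop, MulOpposite.unop_op, map_add, map_mul]
      ring
  map_zero' := by simp
  map_add' a b := by
    apply TrivSqZeroExt.ext
    · simp only [TrivSqZeroExt.fst_add, TrivSqZeroExt.fst_inl, TrivSqZeroExt.fst_inr,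
        map_add, add_zero]
    · simp only [TrivSqZeroExt.snd_add, TrivSqZeroExt.snd_inl, TrivSqZeroExt.snd_inr,
        map_add, zero_add]

lemma psi_fst (a : A) : (psi D a).fst = algebraMap A (FractionRing A) a := by
  simp only [psi, RingHom.coe_mk, MonoidHom.coe_mk, OneHom.coe_mk, TrivSqZeroExt.fst_add,
    TrivSqZeroExt.fst_inl, TrivSqZeroExt.fst_inr, add_zero]

lemma psi_snd (a : A) : (psi D a).snd = algebraMap A (FractionRing A) (D a) := by
  simp only [psi, RingHom.coe_mk, MonoidHom.coe_mk, OneHom.coe_mk, TrivSqZeroExt.snd_add,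
    TrivSqZeroExt.snd_inl, TrivSqZeroExt.snd_inr, zero_add]

lemma psi_isUnit (y : nonZeroDivisors A) : IsUnit (psi D y) := by
  rw [TrivSqZeroExt.isUnit_iff_isUnit_fst, psi_fst]
  simp

/-- extension of `psi` to the fraction field -/
noncomputable def psiF : FractionRing A →+* TrivSqZeroExt (FractionRing A) (FractionRing A) :=
  IsLocalization.lift (M := nonZeroDivisors A) (g := psi D) (psi_isUnit D)

lemma psiF_algebraMap (a : A) : psiF D (algebraMap A (FractionRing A) a) = psi D a :=
  IsLocalization.lift_eq _ _

lemma fst_psiF (x : FractionRing A) : (psiF D x).fst = x := by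
  have h : ((TrivSqZeroExt.fstHom (FractionRing A) (FractionRing A)
      (FractionRing A)).toRingHom.comp (psiF D)) = RingHom.id _ := by
    apply IsLocalization.ringHom_ext (nonZeroDivisors A)
    ext a
    change (psiF D (algebraMap A (FractionRing A) a)).fst = algebraMap A (FractionRing A) a
    rw [psiF_algebraMap, psi_fst]
  exact congrArg (fun f : FractionRing A →+* FractionRing A => f x) h

/-- the derivation of the fraction field extending `D` -/
noncomputable def DF (x : FractionRing A) : FractionRing A := (psiF D x).snd

lemma DF_algebraMap (a : A) :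
    DF D (algebraMap A (FractionRing A) a) = algebraMap A (FractionRing A) (D a) := by
  rw [DF, psiF_algebraMap, psi_snd]

lemma DF_add (x y : FractionRing A) : DF D (x + y) = DF D x + DF D y := by
  rw [DF, map_add]
  rfl

lemma DF_mul (x y : FractionRing A) : DF D (x * y) = x * DF D y + y * DF D x := by
  rw [DF, map_mul, TrivSqZeroExt.snd_mul, fst_psiF, fst_psiF]
  simp [DF, mul_comm]

lemma DF_div (a b : A) (hb : algebraMap A (FractionRing A) b ≠ 0) :
    DF D (algebraMap A (FractionRing A) a / algebraMap A (FractionRing A) b) =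
      algebraMap A (FractionRing A) (b * D a - a * D b) /
        algebraMap A (FractionRing A) (b * b) := by
  have h := DF_mul D (algebraMap A (FractionRing A) a / algebraMap A (FractionRing A) b)
    (algebraMap A (FractionRing A) b)
  rw [div_mul_cancel₀ _ hb, DF_algebraMap, DF_algebraMap] at h
  rw [map_mul, map_sub, map_mul, map_mul, h]
  field_simp
  ring

end Pool.Agent.Helper17.Strange
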