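import Pool.Agent.Helper17.Strange.Const
import Pool.Agent.Helper17.Strange.Ample
import Pool.Agent.Helper17.Strange.Ext

/-!
A derivation of degree `-1` of a graded domain gives a morphism from `O(1)` to the tangent sheaf.
-/

set_option autoImplicit false

open AlgebraicGeometry CategoryTheory TopologicalSpace Opposite HomogeneousLocalization

universe u

namespace Pool.Agent.Helper17.Strange

variable {k : Type u} [CommRing k] {A : Type u} [CommRing A] [IsDomain A] [Algebra k A]
  {𝒜 : ℕ → Submodule k A} [GradedAlgebra 𝒜]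

lemma sec_ext {U : (Proj 𝒜).Opens} {f g : Γ(Proj 𝒜, U)} (H : ∀ x hx, ev x hx f = ev x hx g) :
    f = g := by
  apply Subtype.ext
  funext y
  apply toFrac_injective 𝒜 y.1
  exact H y.1 y.2

/-- derivations of degree `-1` -/
structure IsDegNegOne (𝒜 : ℕ → Submodule k A) (D : Derivation ℤ A A) : Prop where
  succ : ∀ i a, a ∈ 𝒜 (i + 1) → D a ∈ 𝒜 i
  zero : ∀ a, a ∈ 𝒜 0 → D a = 0

variable {D : Derivation ℤ A A} (hD : IsDegNegOne 𝒜 D)
  (h : ¬ (HomogeneousIdeal.irrelevant 𝒜) ≤ ⊥)

include hD h in
lemma exists_act {V U : (Proj 𝒜).Opens} (hV : V ≤ U) (g : Γ(tw 𝒜, U)) (f : Γ(Proj 𝒜, V)) :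
    ∃ s : Γ(Proj 𝒜, V), ∀ x hx, ev x hx s = tev g x (hV hx) * DF D (ev x hx f) := by
  by_cases hne : ∃ x, x ∈ V
  swap
  · push Not at hne
    exact ⟨0, fun x hx => (hne x hx).elim⟩
  obtain ⟨x0, hx0⟩ := hne
  have hconst : ∀ x hx, tev g x (hV hx) * DF D (ev x hx f) =
      tev g x0 (hV hx0) * DF D (ev x0 hx0 f) := by
    intro x hx
    rw [tev_eq_gen h x (hV hx) g, tev_eq_gen h x0 (hV hx0) g, ev_eq h x x0 hx hx0 f]
  obtain ⟨s, hs⟩ := exists_section V (tev g x0 (hV hx0) * DF D (ev x0 hx0 f)) (by
    intro x hx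
    rw [← hconst x hx]
    obtain ⟨W, hxW, hWV, n, a, b, ha, hb, hab⟩ := exists_tfrac g x (hV hx)
    obtain ⟨m, c, d, hc, hd, hdx, hcd⟩ := exists_frac_at f x hx
    obtain ⟨hbx, hab⟩ := hab x hxW (hV hx)
    have hd0 := algebraMap_ne_zero_of_notMem x hdx
    rw [hab, hcd, DF_div D c d hd0]
    cases m with
    | zero =>
      refine ⟨0, 0, 1, zero_mem _, SetLike.GradedOne.one_mem, ?_, ?_⟩
      · exact fun h => (ProjectiveSpectrum.isPrime x).ne_top
          (Ideal.eq_top_of_isUnit_mem _ h isUnit_one)
      · rw [hD.zero c hc, hD.zero d hd]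
        simp
    | succ m =>
      refine ⟨n + ((m + 1) + (m + 1)), a * (d * D c - c * D d), b * (d * d), ?_, ?_, ?_, ?_⟩
      · have h1 : d * D c - c * D d ∈ 𝒜 ((m + 1) + m) :=
          sub_mem (SetLike.mul_mem_graded hd (hD.succ _ _ hc))
            (SetLike.mul_mem_graded hc (hD.succ _ _ hd))
        have h2 := SetLike.mul_mem_graded ha h1
        rwa [show n + 1 + (m + 1 + m) = n + (m + 1 + (m + 1)) by ring] at h2
      · exact SetLike.mul_mem_graded hb (SetLike.mul_mem_graded hd hd)
      · intro hmem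
        rcases (ProjectiveSpectrum.isPrime x).mem_or_mem hmem with h1 | h1
        · exact hbx h1
        · rcases (ProjectiveSpectrum.isPrime x).mem_or_mem h1 with h1 | h1
          · exact hdx h1
          · exact hdx h1
      · rw [div_mul_div_comm, ← map_mul, ← map_mul])
  exact ⟨s, fun x hx => (hs x hx).trans (hconst x hx).symm⟩

/-- the action of sections of `O(1)` on functions -/
noncomputable def act {V U : (Proj 𝒜).Opens} (hV : V ≤ U) (g : Γ(tw 𝒜, U)) (f : Γ(Proj 𝒜, V)) :
    Γ(Proj 𝒜, V) := (exists_act hD h hV g f).choose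

lemma ev_act {V U : (Proj 𝒜).Opens} (hV : V ≤ U) (g : Γ(tw 𝒜, U)) (f : Γ(Proj 𝒜, V))
    (x : Proj 𝒜) (hx : x ∈ V) : ev x hx (act hD h hV g f) = tev g x (hV hx) * DF D (ev x hx f) :=
  (exists_act hD h hV g f).choose_spec x hx

variable (hk : ∀ c : k, D (algebraMap k A c) = 0)

/-- the vector field given by a section of `O(1)` -/
noncomputable def vf {U : (Proj 𝒜).Opens} (g : Γ(tw 𝒜, U)) : VectorField (strMor 𝒜) U :=
  ⟨fun V hV f => act hD h hV g f,
    { map_add := fun V hV f f' => sec_ext fun x hx => by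
        rw [ev_act, map_add, DF_add, mul_add, map_add, ev_act, ev_act]
      leibniz := fun V hV f f' => sec_ext fun x hx => by
        rw [ev_act, map_mul, DF_mul, map_add, map_mul, map_mul, ev_act, ev_act]
        ring
      map_const := fun V hV c => sec_ext fun x hx => by
        rw [ev_act, ev_const, DF_algebraMap, hk, map_zero, mul_zero, map_zero]
      res := fun V W hV hW f => sec_ext fun x hx => by
        rw [restr_apply, ev_res, ev_act, ev_act, restr_apply, ev_res] }⟩

lemma vf_toFun {U : (Proj 𝒜).Opens} (g : Γ(tw 𝒜, U)) (V : (Proj 𝒜).Opens) (hV : V ≤ U)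
    (f : Γ(Proj 𝒜, V)) : (vf hD h hk g).toFun V hV f = act hD h hV g f := rfl

/-- the morphism from `O(1)` to the tangent sheaf -/
noncomputable def twToTangent : tw 𝒜 ⟶ tangentSheaf (strMor 𝒜) :=
  ⟨PresheafOfModules.homMk (M₁ := (tw 𝒜).val) (M₂ := (tangentSheaf (strMor 𝒜)).val)
    { app := fun U => AddCommGrpCat.ofHom
        { toFun := fun g => (vf hD h hk (U := U.unop) g : VectorField (strMor 𝒜) U.unop)
          map_zero' := by
            apply VectorField.ext'
            intro V hV f
            apply sec_ext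
            intro x hx
            refine (ev_act hD h hV _ f x hx).trans ?_
            exact (zero_mul _).trans (map_zero _).symm
          map_add' := by
            intro g g'
            apply VectorField.ext'
            intro V hV f
            apply sec_ext
            intro x hx
            refine (ev_act hD h hV _ f x hx).trans ?_
            refine (add_mul _ _ _).trans ?_
            refine Eq.trans ?_ (map_add (ev x hx) _ _).symm
            exact congrArg₂ (· + ·) (ev_act hD h hV g f x hx).symm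
              (ev_act hD h hV g' f x hx).symm }
      naturality := by
        intro U V i
        ext g
        apply VectorField.ext'
        intro W hW f
        apply sec_ext
        intro x hx
        refine (ev_act hD h hW _ f x hx).trans ?_
        exact (ev_act hD h (hW.trans i.unop.le) g f x hx).symm }
    (by
      intro U r g
      apply VectorField.ext'
      intro V hV f
      apply sec_ext
      intro x hx
      refine (ev_act hD h hV _ f x hx).trans ?_
      refine (mul_assoc _ _ _).trans ?_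
      refine Eq.trans ?_ (map_mul (ev x hx) _ _).symm
      exact congrArg₂ (· * ·) rfl (ev_act hD h hV g f x hx).symm)⟩

lemma twToTangent_app {U : (Proj 𝒜).Opens} (g : Γ(tw 𝒜, U)) (V : (Proj 𝒜).Opens) (hV : V ≤ U)
    (f : Γ(Proj 𝒜, V)) :
    VectorField.toFun (s := strMor 𝒜) (U := U) ((twToTangent hD h hk).app U g) V hV f =
      act hD h hV g f := rfl

theorem twToTangent_ne_zero {a b : A} (ha : a ∈ 𝒜 1) (hb : b ∈ 𝒜 1) (hb0 : b ≠ 0)
    (hDb : D b = 0) (hDa : D a ≠ 0) : twToTangent hD h hk ≠ 0 := by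
  intro h0
  have hgen : gen h ∈ Proj.basicOpen 𝒜 b := by
    change b ∉ (⊥ : HomogeneousIdeal 𝒜)
    intro hmem
    have h2 : b ∈ (⊥ : HomogeneousIdeal 𝒜).toIdeal := hmem
    rw [HomogeneousIdeal.toIdeal_bot, Ideal.mem_bot] at h2
    exact hb0 h2
  obtain ⟨f, hf⟩ := exists_section (Proj.basicOpen 𝒜 b)
    (algebraMap A (FractionRing A) a / algebraMap A (FractionRing A) b)
    (fun x hx => ⟨1, a, b, ha, hb, hx, rfl⟩)
  have h1 := twToTangent_app hD h hk ((tw 𝒜).presheaf.map (homOfLE le_top).op (tglob b hb))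
    (Proj.basicOpen 𝒜 b) le_rfl f
  rw [h0] at h1
  have h2 := congrArg (ev (gen h) hgen) h1
  rw [ev_act, hf] at h2
  have hb0' := algebraMap_ne_zero_of_notMem (gen h) (b := b) hgen
  rw [DF_div D a b hb0', hDb] at h2
  change (ev (gen h) hgen) 0 = algebraMap A (FractionRing A) b * _ at h2
  rw [map_zero, mul_zero, sub_zero, map_mul, map_mul, mul_div_mul_left _ _ hb0',
    mul_div_cancel₀ _ hb0'] at h2
  apply hDa
  exact (IsFractionRing.injective A (FractionRing A)) (h2.symm.trans (map_zero _).symm)

end Pool.Agent.Helper17.Strange
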