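import Pool.Agent.Helper17.Strange.Quadric
import Pool.Agent.Helper17.Strange.Field

/-!
The quadric as a scheme: integrality, properness, ample line bundle, vector field map.
-/

set_option autoImplicit false
set_option linter.unusedSectionVars false

open AlgebraicGeometry CategoryTheory TopologicalSpace Opposite HomogeneousLocalization

universe u

namespace Pool.Agent.Helper17.Strange

section general

variable {A : Type u} [CommRing A] [IsDomain A] {σ : Type*} [SetLike σ A] [AddSubgroupClass σ A]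
  {𝒜 : ℕ → σ} [GradedRing 𝒜]

theorem isIntegral_proj (h : ¬ (HomogeneousIdeal.irrelevant 𝒜) ≤ ⊥) : IsIntegral (Proj 𝒜) where
  nonempty := ⟨gen h⟩
  component_integral U hU := by
    obtain ⟨x⟩ := hU
    exact (ev_injective h x.1 x.2).isDomain _

omit [IsDomain A] in
lemma irrelevant_not_le_bot {a : A} (ha : a ∈ 𝒜 1) (ha0 : a ≠ 0) :
    ¬ (HomogeneousIdeal.irrelevant 𝒜) ≤ ⊥ := by
  intro h
  have h1 : a ∈ HomogeneousIdeal.irrelevant 𝒜 := by
    rw [HomogeneousIdeal.mem_irrelevant_iff, GradedRing.proj_apply,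
      DirectSum.decompose_of_mem_ne 𝒜 ha (by norm_num)]
  have h2 : a ∈ (⊥ : HomogeneousIdeal 𝒜).toIdeal := h h1
  rw [HomogeneousIdeal.toIdeal_bot, Ideal.mem_bot] at h2
  exact ha0 h2

omit [IsDomain A] in
lemma exists_notMem (x : Proj 𝒜)
    (H : (∀ a ∈ 𝒜 1, a ∈ x.asHomogeneousIdeal) → ∀ n, n ≠ 0 → ∀ a ∈ 𝒜 n,
      a ∈ x.asHomogeneousIdeal) : ∃ a ∈ 𝒜 1, a ∉ x.asHomogeneousIdeal := by
  classical
  by_contra! hcon
  have H' := H hcon
  refine ProjectiveSpectrum.not_irrelevant_le x fun z hz => ?_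
  rw [← DirectSum.sum_support_decompose 𝒜 z]
  refine x.asHomogeneousIdeal.toIdeal.sum_mem fun n _ => ?_
  by_cases hn : n = 0
  · subst hn
    have : (DirectSum.decompose 𝒜 z 0 : A) = 0 := by
      rw [← GradedRing.proj_apply]
      exact (HomogeneousIdeal.mem_irrelevant_iff _ _).1 hz
    rw [this]
    exact zero_mem _
  · exact H' n hn _ (SetLike.coe_mem _)

end general

section quadric

variable (k : Type u) [Field k] [CharP k 2]

lemma irr_QA : ¬ (HomogeneousIdeal.irrelevant (gr k)) ≤ ⊥ :=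
  irrelevant_not_le_bot (xA_mem (k := k) 0) (xA_ne_zero 0)

lemma hgen_QA' (x : Proj (gr k)) : ∃ j, xA (k := k) j ∉ x.asHomogeneousIdeal := by
  by_contra! hcon
  obtain ⟨a, ha, hax⟩ := exists_notMem x (fun _ n hn a ha =>
    haveI := ProjectiveSpectrum.isPrime x
    mem_of_pos x.asHomogeneousIdeal.toIdeal hcon hn ha)
  have := ProjectiveSpectrum.isPrime x
  exact hax (mem_of_pos x.asHomogeneousIdeal.toIdeal hcon one_ne_zero ha)

lemma hgen_QA (x : Proj (gr k)) : ∃ a ∈ gr k 1, a ∉ x.asHomogeneousIdeal := by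
  obtain ⟨j, hj⟩ := hgen_QA' k x
  exact ⟨xA j, xA_mem j, hj⟩

instance integral_quadric : IsIntegral (Proj (gr k)) := isIntegral_proj (irr_QA k)

theorem ample_quadric : IsAmpleLineBundle (tw (gr k)) := tw_ample (irr_QA k) (hgen_QA k)

lemma isDegNegOne_dω : IsDegNegOne (gr k) dω :=
  ⟨dω_succ, dω_zero⟩

theorem exists_morphism : ∃ φ : tw (gr k) ⟶ tangentSheaf (strMor (gr k)), φ ≠ 0 :=
  ⟨_, twToTangent_ne_zero (isDegNegOne_dω k) (irr_QA k) dω_algebraMap
    (a := wA) (b := xA 0) wA_mem (xA_mem 0) (xA_ne_zero 0) (dω_xA 0)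
    (one_ne_zero : (1 : QA k) ≠ 0)⟩

lemma algebraMap_bijective_QA : Function.Bijective (algebraMap k (gr k 0)) := by
  constructor
  · intro a b hab
    have h1 := congrArg (fun z : gr k 0 => (z : QA k).re) hab
    change MvPolynomial.C a = MvPolynomial.C b at h1
    exact MvPolynomial.C_injective _ _ h1
  · rintro ⟨z, hz⟩
    have h0 : z.re.IsHomogeneous 0 := hz.1
    have h1 := MvPolynomial.totalDegree_eq_zero_iff_eq_C.1 (Nat.le_zero.1 h0.totalDegree_le)
    refine ⟨MvPolynomial.coeff 0 z.re, ?_⟩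
    apply Subtype.ext
    apply QuadraticAlgebra.ext
    · exact h1.symm
    · exact (im_eq_zero_of_mem hz).symm

lemma finiteType_QA : Algebra.FiniteType k (QA k) := by
  have h1 : Algebra.FiniteType k (MvPolynomial (Fin 4) k) := inferInstance
  have h2 : Algebra.FiniteType (MvPolynomial (Fin 4) k) (QA k) := inferInstance
  exact Algebra.FiniteType.trans h1 h2

instance finiteType_QA' : Algebra.FiniteType (gr k 0) (QA k) :=
  haveI := finiteType_QA k
  haveI : IsScalarTower k (gr k 0) (QA k) :=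
    IsScalarTower.of_algebraMap_eq (R := k) (S := gr k 0) (A := QA k) (fun _ => rfl)
  Algebra.FiniteType.of_restrictScalars_finiteType k (gr k 0) (QA k)

theorem proper_quadric : IsProper (strMor (gr k)) := by
  have h1 : IsIso (CommRingCat.ofHom (algebraMap k (gr k 0))) := by
    rw [ConcreteCategory.isIso_iff_bijective]
    exact algebraMap_bijective_QA k
  unfold strMor
  infer_instance

end quadric

end Pool.Agent.Helper17.Strange
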