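import Pool.Agent.Helper17.Strange.Quadric

/-!
Auxiliary facts on graded domains and on forms.
-/

set_option autoImplicit false

open MvPolynomial DirectSum

universe u

namespace Pool.Agent.Helper17.Strange

section factor

variable {A : Type*} [CommRing A] {σ : Type*} [SetLike σ A] [AddSubgroupClass σ A]
  (𝒜 : ℕ → σ) [GradedRing 𝒜]

/-- the ring homomorphism `a ↦ ∑ aᵢ Tⁱ` -/
noncomputable def hom1 : A →+* Polynomial A :=
  (DirectSum.toSemiring (fun i => ((Polynomial.monomial i).toAddMonoidHom.comp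
      (AddSubmonoidClass.subtype (𝒜 i)) : 𝒜 i →+ Polynomial A))
    (by simp [SetLike.coe_gOne]) (by
      intro i j a b
      simp [SetLike.coe_gMul, Polynomial.monomial_mul_monomial])).comp
    (DirectSum.decomposeRingEquiv 𝒜).toRingHom

lemma hom1_of_mem {i : ℕ} {a : A} (ha : a ∈ 𝒜 i) : hom1 𝒜 a = Polynomial.monomial i a := by
  have h : DirectSum.decomposeRingEquiv 𝒜 a = DirectSum.of (fun i => 𝒜 i) i ⟨a, ha⟩ :=
    DirectSum.decompose_of_mem 𝒜 ha
  rw [hom1, RingHom.comp_apply]
  simp only [RingEquiv.toRingHom_eq_coe, RingEquiv.coe_toRingHom]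
  rw [h]
  exact DirectSum.toSemiring_of _ _ _ _ _

lemma hom1_coeff (a : A) (i : ℕ) : (hom1 𝒜 a).coeff i = DirectSum.decompose 𝒜 a i := by
  induction a using DirectSum.Decomposition.inductionOn 𝒜 with
  | zero => simp
  | @homogeneous j a =>
    rw [hom1_of_mem 𝒜 a.2, Polynomial.coeff_monomial]
    split_ifs with h
    · subst h
      rw [DirectSum.decompose_of_mem_same 𝒜 a.2]
    · rw [DirectSum.decompose_of_mem_ne 𝒜 a.2 h]
  | add a b ha hb =>
    rw [map_add, Polynomial.coeff_add, ha, hb, DirectSum.decompose_add]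
    rfl

lemma hom1_eval (a : A) : (hom1 𝒜 a).eval 1 = a := by
  induction a using DirectSum.Decomposition.inductionOn 𝒜 with
  | zero => simp
  | @homogeneous j a =>
    rw [hom1_of_mem 𝒜 a.2]
    simp
  | add a b ha hb => rw [map_add, Polynomial.eval_add, ha, hb]

variable {𝒜} [IsDomain A]

/-- factors of homogeneous elements are homogeneous -/
theorem homog_factor {n : ℕ} {a b : A} (hab : a * b ∈ 𝒜 n) (hne : a * b ≠ 0) :
    ∃ i j, i + j = n ∧ a ∈ 𝒜 i ∧ b ∈ 𝒜 j := by
  have ha0 : a ≠ 0 := left_ne_zero_of_mul hne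
  have hb0 : b ≠ 0 := right_ne_zero_of_mul hne
  have hinj : ∀ c : A, c ≠ 0 → hom1 𝒜 c ≠ 0 := by
    intro c hc h
    apply hc
    rw [← hom1_eval 𝒜 c, h, Polynomial.eval_zero]
  have h1 : hom1 𝒜 a * hom1 𝒜 b = Polynomial.monomial n (a * b) := by
    rw [← map_mul, hom1_of_mem 𝒜 hab]
  have h2 := congrArg Polynomial.natDegree h1
  have h3 := congrArg Polynomial.natTrailingDegree h1
  rw [Polynomial.natDegree_mul (hinj a ha0) (hinj b hb0), Polynomial.natDegree_monomial_eq _ hne]
    at h2
  rw [Polynomial.natTrailingDegree_mul (hinj a ha0) (hinj b hb0),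
    Polynomial.natTrailingDegree_monomial hne] at h3
  have key : ∀ c : A, (hom1 𝒜 c).natDegree ≤ (hom1 𝒜 c).natTrailingDegree →
      c ∈ 𝒜 (hom1 𝒜 c).natDegree := by
    intro c hc
    have h4 : hom1 𝒜 c = Polynomial.monomial (hom1 𝒜 c).natDegree
        ((hom1 𝒜 c).coeff (hom1 𝒜 c).natDegree) := by
      ext i
      rw [Polynomial.coeff_monomial]
      split_ifs with h
      · rw [h]
      · rcases lt_or_gt_of_ne h with h5 | h5
        · exact Polynomial.coeff_eq_zero_of_natDegree_lt h5
        · exact Polynomial.coeff_eq_zero_of_lt_natTrailingDegree (h5.trans_le hc)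
    have h5 : c = DirectSum.decompose 𝒜 c (hom1 𝒜 c).natDegree := by
      conv_lhs => rw [← hom1_eval 𝒜 c, h4]
      rw [Polynomial.eval_monomial, one_pow, mul_one, hom1_coeff]
    rw [h5]
    conv in (𝒜 _) => rw [← h5]
    exact SetLike.coe_mem _
  have h4 := Polynomial.natTrailingDegree_le_natDegree (hom1 𝒜 a)
  have h5 := Polynomial.natTrailingDegree_le_natDegree (hom1 𝒜 b)
  exact ⟨_, _, h2, key a (by omega), key b (by omega)⟩

/-- the cofactor of a homogeneous element in a homogeneous element is homogeneous -/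
theorem cofactor_mem {m j : ℕ} {a b : A} (ha : a ∈ 𝒜 m) (ha0 : a ≠ 0) (hab : a * b ∈ 𝒜 (m + j)) :
    b ∈ 𝒜 j := by
  have h1 : a * (DirectSum.decompose 𝒜 b j : A) = a * b := by
    rw [← DirectSum.coe_decompose_mul_add_of_left_mem 𝒜 ha, DirectSum.decompose_of_mem_same 𝒜 hab]
  have h2 := mul_left_cancel₀ ha0 h1
  rw [← h2]
  exact SetLike.coe_mem _

end factor

section finrank

variable (k : Type u) [Field k]

theorem finrank_forms (d : ℕ) :
    Module.finrank k (homogeneousSubmodule (Fin 4) k d) = (d + 3).choose 3 := by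
  classical
  rw [homogeneousSubmodule_eq_finsupp_supported]
  have e : AddMonoidAlgebra.supported k k {x : Fin 4 →₀ ℕ | x.degree = d} ≃ₗ[k]
      ({x : Fin 4 →₀ ℕ | x.degree = d} →₀ k) :=
    AddMonoidAlgebra.supportedEquivFinsupp _
  have h1 : {x : Fin 4 →₀ ℕ | x.degree = d} = ((Finset.univ : Finset (Fin 4)).finsuppAntidiag d) := by
    ext x
    simp [Finset.mem_finsuppAntidiag, Finsupp.degree_eq_sum]
  have h2 : Finite {x : Fin 4 →₀ ℕ | x.degree = d} := by
    rw [h1]
    infer_instance
  have := Fintype.ofFinite {x : Fin 4 →₀ ℕ | x.degree = d}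
  rw [e.finrank_eq, Module.finrank_finsupp_self, ← Nat.card_eq_fintype_card, h1,
    Nat.card_coe_set_eq, Set.ncard_coe_finset, Finset.card_finsuppAntidiag_nat_eq_choose]
  simp only [Finset.card_univ, Fintype.card_fin]
  rw [show 4 + d - 1 = d + 3 by omega]
  exact Nat.choose_symm_add

theorem finrank_forms_ne (d : ℕ) :
    Module.finrank k (homogeneousSubmodule (Fin 4) k d) ≠ 5 := by
  rw [finrank_forms]
  rcases Nat.lt_or_ge d 2 with h | h
  · interval_cases d <;> decide
  · have h1 : (5 : ℕ).choose 3 ≤ (d + 3).choose 3 := Nat.choose_le_choose 3 (by omega)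
    have h2 : (5 : ℕ).choose 3 = 10 := by decide
    omega

/-- forms of degree one in the coordinate ring of the quadric -/
noncomputable def grOneEquiv : gr k 1 ≃ₗ[k]
    (homogeneousSubmodule (Fin 4) k 1) × (homogeneousSubmodule (Fin 4) k 0) where
  toFun z := (⟨z.1.re, z.2.1⟩, ⟨z.1.im, z.2.2⟩)
  map_add' _ _ := rfl
  map_smul' _ _ := rfl
  invFun p := ⟨⟨p.1.1, p.2.1⟩, p.1.2, p.2.2⟩
  left_inv _ := rfl
  right_inv _ := rfl

instance finite_forms (d : ℕ) : Module.Finite k (homogeneousSubmodule (Fin 4) k d) := by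
  apply Module.finite_of_finrank_pos
  rw [finrank_forms]
  exact Nat.choose_pos (by omega)

instance finite_grOne : Module.Finite k (gr k 1) :=
  Module.Finite.equiv (grOneEquiv k).symm

theorem finrank_grOne : Module.finrank k (gr k 1) = 5 := by
  rw [(grOneEquiv k).finrank_eq, Module.finrank_prod, finrank_forms, finrank_forms]
  decide

end finrank

end Pool.Agent.Helper17.Strange
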