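import Pool.Agent.Helper17.Strange.Pullback

/-!
The quadric threefold is not isomorphic to projective space.
-/

set_option autoImplicit false
set_option linter.unusedSectionVars false

open AlgebraicGeometry CategoryTheory TopologicalSpace Opposite HomogeneousLocalization
open MvPolynomial (X C homogeneousSubmodule)

universe u

namespace Pool.Agent.Helper17.Strange

attribute [local instance] MvPolynomial.gradedAlgebra

lemma const_comp {k : Type u} [CommRing k] {Y Z : Scheme.{u}} (f : Y ⟶ Z) (s : Z ⟶ Spec (.of k))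
    (U : Z.Opens) (c : k) : f.app U (const s U c) = const (f ≫ s) (f ⁻¹ᵁ U) c := by
  have h1 := f.naturality (homOfLE (le_top : U ≤ ⊤)).op
  have h2 := congrArg (fun g => g (s.appTop ((Scheme.ΓSpecIso (.of k)).inv c))) h1
  exact h2

section

variable {k : Type u} [Field k]

lemma irr_P : ¬ (HomogeneousIdeal.irrelevant (homogeneousSubmodule (Fin 4) k)) ≤ ⊥ :=
  irrelevant_not_le_bot (a := (X 0 : MvPolynomial (Fin 4) k)) (MvPolynomial.isHomogeneous_X _ _)
    (MvPolynomial.X_ne_zero 0)

variable [CharP k 2]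

/-- the section `a / x_i` -/
noncomputable def secf (i : Fin 4) (a : gr k 1) : Γ(Proj (gr k), Proj.basicOpen (gr k) (xA i)) :=
  (exists_sec (xA_mem i) a.2).choose

lemma ev_secf (i : Fin 4) (a : gr k 1) (x : Proj (gr k)) (hx : x ∈ Proj.basicOpen (gr k) (xA i)) :
    ev x hx (secf i a) =
      algebraMap (QA k) (FractionRing (QA k)) a / algebraMap (QA k) (FractionRing (QA k)) (xA i) :=
  (exists_sec (xA_mem i) a.2).choose_spec x hx

lemma gen_mem_xA (i : Fin 4) : gen (irr_QA k) ∈ Proj.basicOpen (gr k) (xA i) :=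
  gen_mem_basicOpen _ (xA_ne_zero i)

variable (e : Proj (gr k) ≅ Proj (homogeneousSubmodule (Fin 4) k))

/-- the pull back of `a / x_i` -/
noncomputable def rr (i : Fin 4) (a : gr k 1) : FractionRing (MvPolynomial (Fin 4) k) :=
  pb e (irr_QA k) irr_P (gen_mem_xA i) (secf i a)

/-- coordinate, as an element of degree one -/
noncomputable def xx (i : Fin 4) : gr k 1 := ⟨xA i, xA_mem i⟩

lemma algebraMap_xA_ne (i : Fin 4) : algebraMap (QA k) (FractionRing (QA k)) (xA i) ≠ 0 := by
  rw [Ne, IsFractionRing.to_map_eq_zero_iff]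
  exact xA_ne_zero i

lemma rr_self (i : Fin 4) : rr e i (xx i) = 1 := by
  have h : secf i (xx i) = (1 : Γ(Proj (gr k), Proj.basicOpen (gr k) (xA i))) := by
    apply ev_injective (irr_QA k) _ (gen_mem_xA i)
    rw [ev_secf, map_one]
    exact div_self (algebraMap_xA_ne i)
  rw [rr, h, map_one]

lemma rr_rel (i j : Fin 4) (a : gr k 1) : rr e i a = rr e i (xx j) * rr e j a := by
  apply pb_mul_of_ev
  rw [ev_secf, ev_secf, ev_secf]
  have h1 := algebraMap_xA_ne (k := k) i
  have h2 := algebraMap_xA_ne (k := k) j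
  change _ = algebraMap (QA k) (FractionRing (QA k)) (xA j) / _ * _
  field_simp

lemma rr_add (i : Fin 4) (a b : gr k 1) : rr e i (a + b) = rr e i a + rr e i b := by
  have h : secf i (a + b) = secf i a + secf i b := by
    apply ev_injective (irr_QA k) _ (gen_mem_xA i)
    rw [ev_secf, map_add, ev_secf, ev_secf]
    change algebraMap (QA k) (FractionRing (QA k)) ((a : QA k) + b) / _ = _
    rw [map_add, add_div]
  rw [rr, h, map_add, rr, rr]

lemma rr_inj (i : Fin 4) (a : gr k 1) (h : rr e i a = 0) : a = 0 := by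
  have h1 : secf i a = 0 := pb_injective e (irr_QA k) irr_P (gen_mem_xA i) (h.trans (map_zero _).symm)
  have h2 := ev_secf i a _ (gen_mem_xA i)
  rw [h1, map_zero] at h2
  have h3 := (div_eq_zero_iff.1 h2.symm).resolve_right (algebraMap_xA_ne i)
  rw [IsFractionRing.to_map_eq_zero_iff] at h3
  exact Subtype.ext h3

variable (he : e.hom ≫ strMor (homogeneousSubmodule (Fin 4) k) = strMor (gr k))

include he in
lemma rr_smul (i : Fin 4) (c : k) (a : gr k 1) : rr e i (c • a) =
    algebraMap (MvPolynomial (Fin 4) k) (FractionRing (MvPolynomial (Fin 4) k)) (C c) *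
      rr e i a := by
  have h : secf i (c • a) = const (strMor (gr k)) _ c * secf i a := by
    apply ev_injective (irr_QA k) _ (gen_mem_xA i)
    rw [ev_secf, map_mul, ev_secf, ev_const]
    change algebraMap (QA k) (FractionRing (QA k)) (c • (a : QA k)) / _ = _
    rw [Algebra.smul_def, map_mul, mul_div_assoc]
  rw [rr, h, map_mul, rr]
  congr 1
  change ev _ _ (e.inv.app _ (const (strMor (gr k)) _ c)) = _
  rw [const_comp]
  have h2 : e.inv ≫ strMor (gr k) = strMor (homogeneousSubmodule (Fin 4) k) := by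
    rw [← he, Iso.inv_hom_id_assoc]
  rw [h2, ev_const]
  rfl

end

section main

variable {k : Type u} [Field k]

/-- forms as elements of the fraction field -/
noncomputable abbrev io : MvPolynomial (Fin 4) k →+* FractionRing (MvPolynomial (Fin 4) k) :=
  algebraMap _ _

lemma io_injective : Function.Injective (io (k := k)) := IsFractionRing.injective _ _

lemma io_ne_zero {p : MvPolynomial (Fin 4) k} (hp : p ≠ 0) : io p ≠ 0 := by
  rwa [Ne, io, IsFractionRing.to_map_eq_zero_iff]

variable [CharP k 2]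
variable (e : Proj (gr k) ≅ Proj (homogeneousSubmodule (Fin 4) k))

/-- common denominators of degree `d` -/
def IsDen (d : ℕ) : Prop := ∃ b ∈ homogeneousSubmodule (Fin 4) k d, b ≠ 0 ∧
  ∀ a : gr k 1, ∃ g ∈ homogeneousSubmodule (Fin 4) k d, rr e 0 a * io b = io g

lemma exists_den_finset (F : Finset (gr k 1)) :
    ∃ d, ∃ b ∈ homogeneousSubmodule (Fin 4) k d, b ≠ 0 ∧
      ∀ a ∈ F, ∃ g ∈ homogeneousSubmodule (Fin 4) k d, rr e 0 a * io b = io g := by
  classical
  induction F using Finset.induction_on with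
  | empty => exact ⟨0, 1, MvPolynomial.isHomogeneous_one _ _, one_ne_zero, by simp⟩
  | insert a F _ ih =>
    obtain ⟨d, b, hb, hb0, hF⟩ := ih
    obtain ⟨i, p, q, hp, hq, hqz, h⟩ := pb_frac_at e (irr_QA k) irr_P (gen_mem_xA 0) (secf 0 a)
      (gen irr_P) (gen_mem_preimage e (irr_QA k) irr_P (gen_mem_xA 0))
    have hq0 : q ≠ 0 := by
      rintro rfl
      exact hqz (zero_mem _)
    refine ⟨d + i, b * q, MvPolynomial.IsHomogeneous.mul hb hq, mul_ne_zero hb0 hq0, ?_⟩
    intro a' ha'
    rcases Finset.mem_insert.1 ha' with rfl | ha'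
    · refine ⟨b * p, MvPolynomial.IsHomogeneous.mul hb hp, ?_⟩
      rw [rr, h, map_mul, map_mul]
      have := io_ne_zero hq0
      change io p / io q * (io b * io q) = io b * io p
      field_simp
    · obtain ⟨g, hg, hg'⟩ := hF a' ha'
      refine ⟨g * q, MvPolynomial.IsHomogeneous.mul hg hq, ?_⟩
      rw [map_mul, map_mul, ← hg', mul_assoc]

variable (he : e.hom ≫ strMor (homogeneousSubmodule (Fin 4) k) = strMor (gr k))

include he in
lemma exists_den : ∃ d, IsDen e d := by
  obtain ⟨F, hF⟩ := (finite_grOne k).fg_top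
  obtain ⟨d, b, hb, hb0, h⟩ := exists_den_finset e F
  refine ⟨d, b, hb, hb0, fun a => ?_⟩
  let N : Submodule k (gr k 1) :=
    { carrier := {a | ∃ g ∈ homogeneousSubmodule (Fin 4) k d, rr e 0 a * io b = io g}
      add_mem' := by
        rintro a a' ⟨g, hg, h1⟩ ⟨g', hg', h2⟩
        refine ⟨g + g', add_mem hg hg', ?_⟩
        rw [rr_add, add_mul, h1, h2, map_add]
      zero_mem' := by
        refine ⟨0, zero_mem _, ?_⟩
        have h1 : rr e 0 (0 : gr k 1) = 0 := by
          have := rr_add e 0 (0 : gr k 1) 0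
          rw [add_zero] at this
          exact left_eq_add.1 this
        rw [h1, zero_mul, map_zero]
      smul_mem' := by
        rintro c a ⟨g, hg, h1⟩
        refine ⟨C c * g, ?_, ?_⟩
        · rw [← MvPolynomial.smul_eq_C_mul]
          exact Submodule.smul_mem _ c hg
        · rw [rr_smul e he, mul_assoc, h1, map_mul] }
  have h1 : (⊤ : Submodule k (gr k 1)) ≤ N := by
    rw [← hF, Submodule.span_le]
    exact h
  exact h1 (Submodule.mem_top : a ∈ ⊤)

lemma exists_prime_factor {b : MvPolynomial (Fin 4) k} (hb0 : b ≠ 0)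
    (I : Ideal (MvPolynomial (Fin 4) k)) (hI : I.IsPrime) (hb : b ∈ I) :
    ∃ p, Prime p ∧ p ∣ b ∧ p ∈ I := by
  have h1 := UniqueFactorizationMonoid.factors_prod hb0
  obtain ⟨v, hv⟩ := h1
  have h2 : (UniqueFactorizationMonoid.factors b).prod ∈ I := by
    have h3 : (UniqueFactorizationMonoid.factors b).prod * v ∈ I := by rwa [hv]
    rcases hI.mem_or_mem h3 with h | h
    · exact h
    · exact absurd (Ideal.eq_top_of_isUnit_mem _ h v.isUnit) hI.ne_top
  obtain ⟨p, hp, hpI⟩ := (hI.multiset_prod_mem_iff_exists_mem _).1 h2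
  refine ⟨p, UniqueFactorizationMonoid.prime_of_factor p hp, ?_, hpI⟩
  exact (Multiset.dvd_prod hp).trans ⟨v, hv.symm⟩

/-- the numerators do not vanish simultaneously in codimension one -/
lemma notMem_of_min {d : ℕ} (hmin : ∀ m < d, ¬ IsDen e m) {b : MvPolynomial (Fin 4) k}
    (hb : b ∈ homogeneousSubmodule (Fin 4) k d) (hb0 : b ≠ 0) (G : gr k 1 → MvPolynomial (Fin 4) k)
    (hG : ∀ a, G a ∈ homogeneousSubmodule (Fin 4) k d) (hG' : ∀ a, rr e 0 a * io b = io (G a))
    (i : Fin 4) (z : Proj (homogeneousSubmodule (Fin 4) k))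
    (hz : e.inv z ∈ Proj.basicOpen (gr k) (xA i)) : G (xx i) ∉ z.asHomogeneousIdeal := by
  intro hmem
  have hprime : z.asHomogeneousIdeal.toIdeal.IsPrime := ProjectiveSpectrum.isPrime z
  have hGb : G (xx 0) = b := by
    apply io_injective
    rw [← hG', rr_self, one_mul]
  have hGi0 : G (xx i) ≠ 0 := by
    intro h0
    have h1 := hG' (xx i)
    rw [h0, map_zero, mul_eq_zero] at h1
    have h2 := rr_inj e 0 _ (h1.resolve_right (io_ne_zero hb0))
    exact xA_ne_zero i (congrArg Subtype.val h2)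
  obtain ⟨p, hp, hpb, hpz⟩ := exists_prime_factor hGi0 _ hprime hmem
  have hdvd : ∀ a, p ∣ G a := by
    intro a
    obtain ⟨n, α, β, hα, hβ, hβz, h⟩ := pb_frac_at e (irr_QA k) irr_P (gen_mem_xA i) (secf i a) z hz
    change rr e i a = _ at h
    have hβ0 : β ≠ 0 := by
      rintro rfl
      exact hβz (zero_mem _)
    have h1 : G a * β = α * G (xx i) := by
      apply io_injective
      rw [map_mul, map_mul, ← hG', ← hG', rr_rel e 0 i a, h]
      have := io_ne_zero hβ0
      change rr e 0 (xx i) * (io α / io β) * io b * io β = io α * (rr e 0 (xx i) * io b)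
      field_simp
    have h2 : p ∣ G a * β := by
      rw [h1]
      exact hpb.mul_left _
    rcases hp.dvd_or_dvd h2 with h3 | h3
    · exact h3
    · exact absurd (Ideal.mem_of_dvd _ h3 hpz) hβz
  obtain ⟨b', hb'⟩ : p ∣ b := hGb ▸ hdvd (xx 0)
  have hb'0 : b' ≠ 0 := by
    rintro rfl
    exact hb0 (by rw [hb', mul_zero])
  obtain ⟨m, j, hmj, hpm, hb'j⟩ := homog_factor (𝒜 := homogeneousSubmodule (Fin 4) k)
    (hb' ▸ hb) (hb' ▸ hb0)
  have hm : m ≠ 0 := by
    rintro rfl
    have h1 : p.IsHomogeneous 0 := hpm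
    have h2 := MvPolynomial.totalDegree_eq_zero_iff_eq_C.1 (Nat.le_zero.1 h1.totalDegree_le)
    apply hp.not_isUnit
    rw [h2]
    apply IsUnit.map
    rw [isUnit_iff_ne_zero]
    intro h3
    rw [h3, map_zero] at h2
    exact hp.ne_zero h2
  refine hmin j (by omega) ⟨b', hb'j, hb'0, fun a => ?_⟩
  obtain ⟨g', hg'⟩ := hdvd a
  refine ⟨g', ?_, ?_⟩
  · apply cofactor_mem (𝒜 := homogeneousSubmodule (Fin 4) k) hpm hp.ne_zero
    rw [← hg', hmj]
    exact hG a
  · have h1 := hG' a
    rw [hg', hb', map_mul, map_mul] at h1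
    apply mul_left_cancel₀ (io_ne_zero hp.ne_zero)
    linear_combination h1

lemma dvd_comp {n m : ℕ} {a b : MvPolynomial (Fin 4) k}
    (h : a * X 0 * X 2 ^ m = X 2 * b * X 0 ^ n) :
    (X 0 : MvPolynomial (Fin 4) k) ^ n ∣ a * X 0 := by
  apply Prime.pow_dvd_of_dvd_mul_right (MvPolynomial.X_prime (i := 0)) n (b := X 2 ^ m)
  · intro h1
    have h2 := (MvPolynomial.X_prime (R := k) (i := (0 : Fin 4))).dvd_of_dvd_pow h1
    rw [MvPolynomial.X_dvd_X] at h2
    exact absurd h2 (by decide)
  · rw [h]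
    exact Dvd.intro_left _ rfl

lemma xA_pow (i : Fin 4) (n : ℕ) : (xA i : QA k) ^ n = ⟨X i ^ n, 0⟩ := by
  have : (xA i : QA k) ^ n = algebraMap (MvPolynomial (Fin 4) k) (QA k) (X i ^ n) := by
    rw [map_pow]
    rfl
  exact this

/-- an element which is a fraction with denominators a power of `x₀` and a power of `x₂` -/
lemma exists_deg_one {n m : ℕ} {α β : QA k} (hα : α ∈ gr k n)
    (h : α * xA 0 * xA 2 ^ m = xA 2 * β * xA 0 ^ n) :
    ∃ c ∈ gr k 1, α * xA 0 = xA 0 ^ n * c := by
  rw [xA_pow, xA_pow] at h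
  have hre := congrArg QuadraticAlgebra.re h
  have him := congrArg QuadraticAlgebra.im h
  simp only [xA, QuadraticAlgebra.re_mul, QuadraticAlgebra.im_mul, mul_zero, zero_mul, add_zero,
    zero_add] at hre him
  obtain ⟨c1, hc1⟩ := dvd_comp hre
  obtain ⟨c2, hc2⟩ := dvd_comp him
  have h1 : α * xA 0 = xA 0 ^ n * ⟨c1, c2⟩ := by
    rw [xA_pow]
    apply QuadraticAlgebra.ext
    · simp only [xA, QuadraticAlgebra.re_mul, mul_zero, zero_mul, add_zero]
      exact hc1
    · simp only [xA, QuadraticAlgebra.im_mul, mul_zero, zero_mul, add_zero, zero_add]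
      exact hc2
  refine ⟨_, ?_, h1⟩
  have h2 : (xA 0 : QA k) ^ n ∈ gr k n := by
    have := SetLike.pow_mem_graded (A := gr k) n (xA_mem (k := k) 0)
    simpa using this
  refine cofactor_mem (𝒜 := gr k) (m := n) (j := 1) h2 (pow_ne_zero n (xA_ne_zero 0)) ?_
  rw [← h1]
  exact SetLike.mul_mem_graded hα (xA_mem 0)

/-- every form of minimal degree comes from a linear form -/
lemma surj_of_min {d : ℕ} (hmin : ∀ m < d, ¬ IsDen e m) {b : MvPolynomial (Fin 4) k}
    (hb : b ∈ homogeneousSubmodule (Fin 4) k d) (hb0 : b ≠ 0) (G : gr k 1 → MvPolynomial (Fin 4) k)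
    (hG : ∀ a, G a ∈ homogeneousSubmodule (Fin 4) k d) (hG' : ∀ a, rr e 0 a * io b = io (G a))
    (H : MvPolynomial (Fin 4) k) (hH : H ∈ homogeneousSubmodule (Fin 4) k d) :
    ∃ a, G a = H := by
  have key := notMem_of_min e hmin hb hb0 G hG hG'
  have ex : ∀ i : Fin 4, ∃ s : Γ(Proj (gr k), Proj.basicOpen (gr k) (xA i)),
      pb e (irr_QA k) irr_P (gen_mem_xA i) s = io H / io (G (xx i)) := fun i =>
    exists_pb e (irr_QA k) irr_P (gen_mem_xA i) _ fun z hz =>
      ⟨d, H, G (xx i), hH, hG _, key i z hz, rfl⟩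
  obtain ⟨s, hs⟩ := ex 0
  obtain ⟨t, ht⟩ := ex 2
  have hGb : G (xx 0) = b := by
    apply io_injective
    rw [← hG', rr_self, one_mul]
  have hG2 : G (xx 2) ≠ 0 := by
    intro h0
    have h1 := hG' (xx 2)
    rw [h0, map_zero, mul_eq_zero] at h1
    have h2 := rr_inj e 0 _ (h1.resolve_right (io_ne_zero hb0))
    exact xA_ne_zero 2 (congrArg Subtype.val h2)
  have hrel : pb e (irr_QA k) irr_P (gen_mem_xA 0) s =
      pb e (irr_QA k) irr_P (gen_mem_xA 0) (secf 0 (xx 2)) *
        pb e (irr_QA k) irr_P (gen_mem_xA 2) t := by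
    rw [hs, ht, hGb]
    have h1 : rr e 0 (xx 2) = io (G (xx 2)) / io b := by
      rw [← hG', mul_div_assoc, div_self (io_ne_zero hb0), mul_one]
    change _ = rr e 0 (xx 2) * _
    rw [h1]
    have h2 := io_ne_zero hb0
    have h3 := io_ne_zero hG2
    field_simp
  have hrel2 := ev_mul_of_pb e (irr_QA k) irr_P _ _ _ _ _ hrel
  obtain ⟨n, α, hα, hs'⟩ := exists_ev_eq (xA_mem 0) s
  obtain ⟨m, β, hβ, ht'⟩ := exists_ev_eq (xA_mem 2) t
  rw [hs', ht', ev_secf] at hrel2
  have hx0 := algebraMap_xA_ne (k := k) 0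
  have hx2 := algebraMap_xA_ne (k := k) 2
  have heq : α * xA 0 * xA 2 ^ m = xA 2 * β * xA 0 ^ n := by
    apply IsFractionRing.injective (QA k) (FractionRing (QA k))
    simp only [map_mul, map_pow]
    change _ = algebraMap (QA k) (FractionRing (QA k)) (xA 2) / _ * _ at hrel2
    field_simp at hrel2
    linear_combination hrel2
  obtain ⟨c, hc, hαc⟩ := exists_deg_one hα heq
  refine ⟨⟨c, hc⟩, ?_⟩
  have hsc : s = secf 0 ⟨c, hc⟩ := by
    apply ev_injective (irr_QA k) _ (gen_mem_xA 0)
    rw [hs', ev_secf]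
    have h1 := congrArg (algebraMap (QA k) (FractionRing (QA k))) hαc
    rw [map_mul, map_mul, map_pow] at h1
    change _ = algebraMap (QA k) (FractionRing (QA k)) c / _
    rw [div_eq_div_iff (pow_ne_zero _ hx0) hx0, h1]
    ring
  apply io_injective
  rw [← hG', rr, ← hsc, hs, hGb, div_mul_cancel₀ _ (io_ne_zero hb0)]

include he in
theorem not_iso : False := by
  classical
  have hex := exists_den e he
  obtain ⟨b, hb, hb0, hex'⟩ := Nat.find_spec hex
  have hmin : ∀ m < Nat.find hex, ¬ IsDen e m := fun m hm => Nat.find_min hex hm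
  choose G hG hG' using hex'
  have hsurj := surj_of_min e hmin hb hb0 G hG hG'
  let L : gr k 1 →ₗ[k] homogeneousSubmodule (Fin 4) k (Nat.find hex) :=
    { toFun := fun a => ⟨G a, hG a⟩
      map_add' := by
        intro a a'
        apply Subtype.ext
        apply io_injective
        change io (G (a + a')) = io (G a + G a')
        rw [map_add, ← hG', ← hG', ← hG', rr_add, add_mul]
      map_smul' := by
        intro c a
        apply Subtype.ext
        apply io_injective
        change io (G (c • a)) = io (c • G a)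
        rw [MvPolynomial.smul_eq_C_mul, map_mul, ← hG', ← hG', rr_smul e he, mul_assoc] }
  have hL : Function.Bijective L := by
    constructor
    · rw [injective_iff_map_eq_zero]
      intro a ha
      have h1 : G a = 0 := congrArg Subtype.val ha
      have h2 := hG' a
      rw [h1, map_zero, mul_eq_zero] at h2
      exact rr_inj e 0 a (h2.resolve_right (io_ne_zero hb0))
    · rintro ⟨H, hH⟩
      obtain ⟨a, ha⟩ := hsurj H hH
      exact ⟨a, Subtype.ext ha⟩
  have h1 := (LinearEquiv.ofBijective L hL).finrank_eq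
  rw [finrank_grOne] at h1
  exact finrank_forms_ne k _ h1.symm

end main

end Pool.Agent.Helper17.Strange
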