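import Mathlib

/-!
Sections of the structure sheaf of `Proj 𝒜`, for a graded domain `A`, as elements of the fraction
field of `A`.
-/

set_option autoImplicit false

open AlgebraicGeometry CategoryTheory TopologicalSpace Opposite HomogeneousLocalization

universe u

namespace Pool.Agent.Helper17.Strange

variable {A : Type u} [CommRing A] [IsDomain A] {σ : Type*} [SetLike σ A] [AddSubgroupClass σ A]
  (𝒜 : ℕ → σ) [GradedRing 𝒜]

lemma le_comap (x : ProjectiveSpectrum 𝒜) : x.asHomogeneousIdeal.toIdeal.primeCompl ≤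
    Submonoid.comap (RingHom.id A) (nonZeroDivisors A) :=
  fun _ hz => x.asHomogeneousIdeal.toIdeal.primeCompl_le_nonZeroDivisors hz

/-- a homogeneous fraction as an element of the fraction field -/
noncomputable def toFrac (x : ProjectiveSpectrum 𝒜) :
    HomogeneousLocalization.AtPrime 𝒜 x.asHomogeneousIdeal.toIdeal →+* FractionRing A :=
  (IsLocalization.map (M := x.asHomogeneousIdeal.toIdeal.primeCompl) (FractionRing A)
    (RingHom.id A) (le_comap 𝒜 x)).comp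
    (algebraMap _ (Localization.AtPrime x.asHomogeneousIdeal.toIdeal))

lemma toFrac_mk (x : ProjectiveSpectrum 𝒜)
    (c : NumDenSameDeg 𝒜 x.asHomogeneousIdeal.toIdeal.primeCompl) :
    toFrac 𝒜 x (.mk c) =
      algebraMap A (FractionRing A) c.num / algebraMap A (FractionRing A) c.den := by
  rw [toFrac, RingHom.comp_apply, HomogeneousLocalization.algebraMap_apply, val_mk,
    Localization.mk_eq_mk', IsLocalization.map_mk', IsFractionRing.mk'_eq_div]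
  rfl

lemma toFrac_injective (x : ProjectiveSpectrum 𝒜) : Function.Injective (toFrac 𝒜 x) := by
  rw [injective_iff_map_eq_zero]
  intro z hz
  obtain ⟨c, rfl⟩ := HomogeneousLocalization.mk_surjective z
  rw [toFrac_mk, div_eq_zero_iff] at hz
  apply mk_eq_zero_of_num
  apply Subtype.ext
  rcases hz with hz | hz
  · exact (IsFractionRing.injective A (FractionRing A)) (hz.trans (map_zero _).symm)
  · exfalso
    apply c.den_mem
    have : (c.den : A) = 0 :=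
      (IsFractionRing.injective A (FractionRing A)) (hz.trans (map_zero _).symm)
    rw [this]
    exact zero_mem _

section ev

variable {𝒜}

/-- value of a section at a point, in the fraction field -/
noncomputable def ev {U : (Proj 𝒜).Opens} (x : Proj 𝒜) (hx : x ∈ U) :
    Γ(Proj 𝒜, U) →+* FractionRing A where
  toFun s := toFrac 𝒜 x (s.1 ⟨x, hx⟩)
  map_one' := (toFrac 𝒜 x).map_one
  map_mul' _ _ := (toFrac 𝒜 x).map_mul _ _
  map_zero' := (toFrac 𝒜 x).map_zero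
  map_add' _ _ := (toFrac 𝒜 x).map_add _ _

lemma ev_res {U V : (Proj 𝒜).Opens} (i : V ⟶ U) (x : Proj 𝒜) (hx : x ∈ V) (s : Γ(Proj 𝒜, U)) :
    ev x hx ((Proj 𝒜).presheaf.map i.op s) = ev x (i.le hx) s := rfl

lemma exists_frac {U : (Proj 𝒜).Opens} (s : Γ(Proj 𝒜, U)) (x : Proj 𝒜) (hx : x ∈ U) :
    ∃ V : (Proj 𝒜).Opens, x ∈ V ∧ ∃ _ : V ≤ U, ∃ (i : ℕ) (a b : A), a ∈ 𝒜 i ∧ b ∈ 𝒜 i ∧
      ∀ (y : Proj 𝒜) (_ : y ∈ V) (hU : y ∈ U), b ∉ y.asHomogeneousIdeal ∧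
        ev y hU s = algebraMap A (FractionRing A) a / algebraMap A (FractionRing A) b := by
  obtain ⟨V, hxV, i, n, a, b, hb, hab⟩ := s.2 ⟨x, hx⟩
  refine ⟨V, hxV, i.le, n, a, b, a.2, b.2, fun y hy hU => ⟨hb ⟨y, hy⟩, ?_⟩⟩
  have h := hab ⟨y, hy⟩
  change toFrac 𝒜 y (s.1 ⟨y, hU⟩) = _
  have h' : s.1 ⟨y, hU⟩ = .mk ⟨n, a, b, hb ⟨y, hy⟩⟩ := h
  rw [h']
  exact toFrac_mk 𝒜 y _

/-- the generic point -/
def gen (h : ¬ (HomogeneousIdeal.irrelevant 𝒜) ≤ ⊥) : Proj 𝒜 :=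
  ⟨⊥, by
    rw [HomogeneousIdeal.toIdeal_bot]
    exact Ideal.isPrime_bot, h⟩

lemma gen_mem (h : ¬ (HomogeneousIdeal.irrelevant 𝒜) ≤ ⊥) {U : (Proj 𝒜).Opens} {x : Proj 𝒜}
    (hx : x ∈ U) : gen h ∈ U := by
  obtain ⟨_, ⟨_, ⟨f, rfl⟩, rfl⟩, hxf, hfU⟩ :=
    (Proj.isBasis_basicOpen 𝒜).exists_subset_of_mem_open hx U.2
  apply hfU
  have hxf' : f ∉ x.asHomogeneousIdeal := hxf
  change f ∉ (⊥ : HomogeneousIdeal 𝒜)
  intro hf
  apply hxf'
  have : f = 0 := by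
    have h2 : f ∈ (⊥ : HomogeneousIdeal 𝒜).toIdeal := hf
    rwa [HomogeneousIdeal.toIdeal_bot, Ideal.mem_bot] at h2
  rw [this]
  exact zero_mem _

lemma ev_eq_gen (h : ¬ (HomogeneousIdeal.irrelevant 𝒜) ≤ ⊥) {U : (Proj 𝒜).Opens} (x : Proj 𝒜)
    (hx : x ∈ U) (s : Γ(Proj 𝒜, U)) : ev x hx s = ev (gen h) (gen_mem h hx) s := by
  obtain ⟨V, hxV, hVU, n, a, b, ha, hb, hab⟩ := exists_frac s x hx
  rw [(hab x hxV hx).2, (hab (gen h) (gen_mem h hxV) (gen_mem h hx)).2]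

lemma ev_eq (h : ¬ (HomogeneousIdeal.irrelevant 𝒜) ≤ ⊥) {U : (Proj 𝒜).Opens} (x y : Proj 𝒜)
    (hx : x ∈ U) (hy : y ∈ U) (s : Γ(Proj 𝒜, U)) : ev x hx s = ev y hy s := by
  rw [ev_eq_gen h x, ev_eq_gen h y]

lemma ev_injective (h : ¬ (HomogeneousIdeal.irrelevant 𝒜) ≤ ⊥) {U : (Proj 𝒜).Opens} (x : Proj 𝒜)
    (hx : x ∈ U) : Function.Injective (ev x hx) := by
  intro s t hst
  apply Subtype.ext
  funext y
  apply toFrac_injective 𝒜 y.1
  change ev y.1 y.2 s = ev y.1 y.2 t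
  rw [ev_eq h y.1 x y.2 hx, ev_eq h y.1 x y.2 hx, hst]

/-- pointwise description of a section: any section has a fraction at any point -/
lemma exists_frac_at {U : (Proj 𝒜).Opens} (s : Γ(Proj 𝒜, U)) (x : Proj 𝒜) (hx : x ∈ U) :
    ∃ (i : ℕ) (a b : A), a ∈ 𝒜 i ∧ b ∈ 𝒜 i ∧ b ∉ x.asHomogeneousIdeal ∧
        ev x hx s = algebraMap A (FractionRing A) a / algebraMap A (FractionRing A) b := by
  obtain ⟨V, hxV, hVU, n, a, b, ha, hb, hab⟩ := exists_frac s x hx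
  exact ⟨n, a, b, ha, hb, hab x hxV hx⟩

lemma exists_section (U : (Proj 𝒜).Opens)
    (f : FractionRing A)
    (hf : ∀ x ∈ U, ∃ (i : ℕ) (a b : A), a ∈ 𝒜 i ∧ b ∈ 𝒜 i ∧ b ∉ x.asHomogeneousIdeal ∧
        f = algebraMap A (FractionRing A) a / algebraMap A (FractionRing A) b) :
    ∃ s : Γ(Proj 𝒜, U), ∀ x hx, ev x hx s = f := by
  choose! i a b ha hb hbx hab using hf
  refine ⟨⟨fun x => .mk ⟨i x.1, ⟨a x.1, ha _ x.2⟩, ⟨b x.1, hb _ x.2⟩, hbx _ x.2⟩, ?_⟩, ?_⟩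
  · intro x
    refine ⟨U ⊓ Proj.basicOpen 𝒜 (b x.1), ⟨x.2, hbx _ x.2⟩, homOfLE inf_le_left,
      i x.1, ⟨a x.1, ha _ x.2⟩, ⟨b x.1, hb _ x.2⟩, fun y => y.2.2, fun y => ?_⟩
    apply toFrac_injective 𝒜 y.1
    refine (toFrac_mk 𝒜 y.1 _).trans (Eq.trans ?_ (toFrac_mk 𝒜 y.1 _).symm)
    exact (hab y.1 y.2.1).symm.trans (hab x.1 x.2)
  · intro x hx
    refine (toFrac_mk 𝒜 x _).trans ?_
    exact (hab x hx).symm

end ev

end Pool.Agent.Helper17.Strange
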