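import Pool.Agent.Helper17.Strange.GradedAux
import Pool.Agent.Helper17.Strange.Geom

/-!
Sections over basic open sets, and isomorphisms between `Proj`s.
-/

set_option autoImplicit false
set_option linter.unusedSectionVars false

open AlgebraicGeometry CategoryTheory TopologicalSpace Opposite HomogeneousLocalization

universe u

namespace Pool.Agent.Helper17.Strange

section basic

variable {A : Type u} [CommRing A] [IsDomain A] {σ : Type*} [SetLike σ A] [AddSubgroupClass σ A]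
  {𝒜 : ℕ → σ} [GradedRing 𝒜]

lemma exists_ev_eq {f : A} (hf : f ∈ 𝒜 1) (t : Γ(Proj 𝒜, Proj.basicOpen 𝒜 f)) :
    ∃ n a, a ∈ 𝒜 n ∧ ∀ x hx, ev x hx t =
      algebraMap A (FractionRing A) a / algebraMap A (FractionRing A) f ^ n := by
  obtain ⟨z, rfl⟩ : ∃ z : Away 𝒜 f, Proj.awayToSection 𝒜 f z = t := by
    refine ⟨(Proj.basicOpenIsoAway 𝒜 f hf one_pos).inv t, ?_⟩
    have h := (Proj.basicOpenIsoAway 𝒜 f hf one_pos).inv_hom_id
    have h2 := congrArg (fun g => g t) h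
    exact h2
  obtain ⟨n, a, ha, rfl⟩ := Away.mk_surjective 𝒜 hf z
  refine ⟨n, a, by simpa using ha, fun x hx => ?_⟩
  refine (toFrac_mk 𝒜 x _).trans ?_
  simp

lemma exists_sec {f a : A} (hf : f ∈ 𝒜 1) (ha : a ∈ 𝒜 1) :
    ∃ s : Γ(Proj 𝒜, Proj.basicOpen 𝒜 f), ∀ x hx, ev x hx s =
      algebraMap A (FractionRing A) a / algebraMap A (FractionRing A) f :=
  exists_section _ _ fun _ hx => ⟨1, a, f, ha, hf, hx, rfl⟩

lemma gen_mem_basicOpen (h : ¬ (HomogeneousIdeal.irrelevant 𝒜) ≤ ⊥) {f : A} (hf : f ≠ 0) :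
    gen h ∈ Proj.basicOpen 𝒜 f := by
  change f ∉ (⊥ : HomogeneousIdeal 𝒜)
  intro h2
  apply hf
  have h3 : f ∈ (⊥ : HomogeneousIdeal 𝒜).toIdeal := h2
  rwa [HomogeneousIdeal.toIdeal_bot, Ideal.mem_bot] at h3

end basic

section iso

variable {A : Type u} [CommRing A] [IsDomain A] {σ : Type*} [SetLike σ A] [AddSubgroupClass σ A]
  {𝒜 : ℕ → σ} [GradedRing 𝒜]
variable {S : Type u} [CommRing S] [IsDomain S] {τ : Type*} [SetLike τ S] [AddSubgroupClass τ S]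
  {ℬ : ℕ → τ} [GradedRing ℬ]
variable (e : Proj 𝒜 ≅ Proj ℬ) (hA : ¬ (HomogeneousIdeal.irrelevant 𝒜) ≤ ⊥)
  (hB : ¬ (HomogeneousIdeal.irrelevant ℬ) ≤ ⊥)

include hA in
lemma gen_mem_preimage {U : (Proj 𝒜).Opens} {x : Proj 𝒜} (hx : x ∈ U) :
    gen hB ∈ e.inv ⁻¹ᵁ U := by
  have h : e.hom (gen hA) ∈ e.inv ⁻¹ᵁ U := by
    change e.inv (e.hom (gen hA)) ∈ U
    rw [← Scheme.Hom.comp_apply, e.hom_inv_id]
    exact gen_mem hA hx
  exact gen_mem hB h

/-- the value of the pulled back section -/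
noncomputable def pb {U : (Proj 𝒜).Opens} {x : Proj 𝒜} (hx : x ∈ U) :
    Γ(Proj 𝒜, U) →+* FractionRing S :=
  (ev (gen hB) (gen_mem_preimage e hA hB hx)).comp (e.inv.app U).hom

lemma pb_injective {U : (Proj 𝒜).Opens} {x : Proj 𝒜} (hx : x ∈ U) :
    Function.Injective (pb e hA hB hx) := by
  intro s t hst
  have h1 := ev_injective hB (gen hB) (gen_mem_preimage e hA hB hx) hst
  have h2 : Function.Injective (e.inv.app U) := by
    have : IsIso (e.inv.app U) := inferInstance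
    exact ((ConcreteCategory.isIso_iff_bijective _).1 this).1
  exact h2 h1

lemma pb_res {U V : (Proj 𝒜).Opens} (h : V ≤ U) {x y : Proj 𝒜} (hx : x ∈ U) (hy : y ∈ V)
    (s : Γ(Proj 𝒜, U)) :
    pb e hA hB hy ((Proj 𝒜).presheaf.map (homOfLE h).op s) = pb e hA hB hx s := by
  have h1 := e.inv.naturality (homOfLE h).op
  have h2 := congrArg (fun g => g s) h1
  change e.inv.app V ((Proj 𝒜).presheaf.map (homOfLE h).op s) =
    (Proj ℬ).presheaf.map _ (e.inv.app U s) at h2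
  change ev _ _ (e.inv.app V ((Proj 𝒜).presheaf.map (homOfLE h).op s)) = _
  rw [h2]
  rfl

lemma pb_mul_of_ev {U V : (Proj 𝒜).Opens} {x y : Proj 𝒜} (hx : x ∈ U) (hy : y ∈ V)
    (s t : Γ(Proj 𝒜, U)) (s' : Γ(Proj 𝒜, V)) (h : ev x hx s = ev x hx t * ev y hy s') :
    pb e hA hB hx s = pb e hA hB hx t * pb e hA hB hy s' := by
  have hz : gen hA ∈ U ⊓ V := ⟨gen_mem hA hx, gen_mem hA hy⟩
  rw [← pb_res e hA hB (inf_le_left : U ⊓ V ≤ U) hx hz s,
    ← pb_res e hA hB (inf_le_left : U ⊓ V ≤ U) hx hz t,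
    ← pb_res e hA hB (inf_le_right : U ⊓ V ≤ V) hy hz s', ← map_mul]
  congr 1
  apply ev_injective hA (gen hA) hz
  rw [map_mul, ev_res, ev_res, ev_res]
  rw [ev_eq_gen hA x hx s, ev_eq_gen hA x hx t, ev_eq_gen hA y hy s'] at h
  exact h

lemma ev_mul_of_pb {U V : (Proj 𝒜).Opens} {x y : Proj 𝒜} (hx : x ∈ U) (hy : y ∈ V)
    (s t : Γ(Proj 𝒜, U)) (s' : Γ(Proj 𝒜, V))
    (h : pb e hA hB hx s = pb e hA hB hx t * pb e hA hB hy s') :
    ev x hx s = ev x hx t * ev y hy s' := by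
  have hz : gen hA ∈ U ⊓ V := ⟨gen_mem hA hx, gen_mem hA hy⟩
  rw [← pb_res e hA hB (inf_le_left : U ⊓ V ≤ U) hx hz s,
    ← pb_res e hA hB (inf_le_left : U ⊓ V ≤ U) hx hz t,
    ← pb_res e hA hB (inf_le_right : U ⊓ V ≤ V) hy hz s', ← map_mul] at h
  have h2 := congrArg (ev (gen hA) hz) (pb_injective e hA hB hz h)
  rw [map_mul, ev_res, ev_res, ev_res] at h2
  rw [ev_eq_gen hA x hx s, ev_eq_gen hA x hx t, ev_eq_gen hA y hy s']
  exact h2

/-- local description of the pulled back section -/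
lemma pb_frac_at {U : (Proj 𝒜).Opens} {x : Proj 𝒜} (hx : x ∈ U) (s : Γ(Proj 𝒜, U)) (z : Proj ℬ)
    (hz : e.inv z ∈ U) : ∃ (i : ℕ) (a b : S), a ∈ ℬ i ∧ b ∈ ℬ i ∧ b ∉ z.asHomogeneousIdeal ∧
      pb e hA hB hx s = algebraMap S (FractionRing S) a / algebraMap S (FractionRing S) b := by
  obtain ⟨i, a, b, ha, hb, hbz, h⟩ := exists_frac_at (e.inv.app U s) z hz
  refine ⟨i, a, b, ha, hb, hbz, ?_⟩
  rw [← h]
  exact ev_eq hB _ _ _ _ _

/-- sections over the inverse image -/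
lemma exists_pb {U : (Proj 𝒜).Opens} {x : Proj 𝒜} (hx : x ∈ U) (f : FractionRing S)
    (hf : ∀ z : Proj ℬ, e.inv z ∈ U → ∃ (i : ℕ) (a b : S), a ∈ ℬ i ∧ b ∈ ℬ i ∧
      b ∉ z.asHomogeneousIdeal ∧
      f = algebraMap S (FractionRing S) a / algebraMap S (FractionRing S) b) :
    ∃ s : Γ(Proj 𝒜, U), pb e hA hB hx s = f := by
  obtain ⟨s', hs'⟩ := exists_section (𝒜 := ℬ) (e.inv ⁻¹ᵁ U) f hf
  have h2 : Function.Surjective (e.inv.app U) := by
    have : IsIso (e.inv.app U) := inferInstance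
    exact ((ConcreteCategory.isIso_iff_bijective _).1 this).2
  obtain ⟨s, hs⟩ := h2 s'
  refine ⟨s, ?_⟩
  change ev _ _ (e.inv.app U s) = f
  rw [hs]
  exact hs' _ _

end iso

end Pool.Agent.Helper17.Strange
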