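import Pool.Agent.Helper17.Strange.Ring

/-!
Properties of the coordinate ring of the quadric `ω² = x₀x₁ + x₂x₃` in characteristic two.
-/

set_option autoImplicit false

open MvPolynomial DirectSum

universe u

namespace Pool.Agent.Helper17.Strange

variable {k : Type u} [Field k] [CharP k 2]

instance charP_B : CharP (MvPolynomial (Fin 4) k) 2 := inferInstance

lemma pderiv_expand (i : Fin 4) (p : MvPolynomial (Fin 4) k) : pderiv i (expand 2 p) = 0 := by
  have h2 : (2 : MvPolynomial (Fin 4) k) = 0 := CharP.cast_eq_zero _ 2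
  induction p using MvPolynomial.induction_on with
  | C a => simp
  | add p q hp hq => rw [map_add, map_add, hp, hq, add_zero]
  | mul_X p j hp =>
    rw [map_mul, expand_X, Derivation.leibniz, hp, Derivation.leibniz_pow]
    simp [h2, smul_eq_mul, nsmul_eq_mul]

/-- embedding into the polynomial ring -/
noncomputable def emb : QA k →+* MvPolynomial (Fin 4) k where
  toFun z := expand 2 z.re + expand 2 z.im * qf k
  map_one' := by rw [QuadraticAlgebra.re_one, QuadraticAlgebra.im_one]; simp
  map_mul' z w := by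
    have h2 : (2 : MvPolynomial (Fin 4) k) = 0 := CharP.cast_eq_zero _ 2
    have hq : expand 2 (qf k) = qf k * qf k := by
      simp only [qf, map_add, map_mul, expand_X]
      linear_combination (- X 0 * X 1 * X 2 * X 3) * h2
    rw [QuadraticAlgebra.re_mul, QuadraticAlgebra.im_mul]
    simp only [map_add, map_mul, hq, zero_mul, map_zero]
    ring
  map_zero' := by simp
  map_add' z w := by
    simp only [QuadraticAlgebra.re_add, QuadraticAlgebra.im_add, map_add]
    ring

lemma emb_apply (z : QA k) : emb z = expand 2 z.re + expand 2 z.im * qf k := rfl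

lemma emb_injective : Function.Injective (emb (k := k)) := by
  rw [injective_iff_map_eq_zero]
  intro z hz
  rw [emb_apply] at hz
  have h1 := congrArg (pderiv (0 : Fin 4)) hz
  have hp : pderiv (0 : Fin 4) (qf k) = X 1 := by
    simp [qf, Derivation.leibniz, pderiv_X]
  rw [map_add, Derivation.leibniz, pderiv_expand, pderiv_expand, hp, map_zero, smul_zero,
    add_zero, zero_add, smul_eq_mul, mul_eq_zero] at h1
  have him : z.im = 0 := by
    rcases h1 with h1 | h1
    · exact (expand_eq_zero two_pos).1 h1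
    · exact absurd h1 (X_ne_zero _)
  rw [him, map_zero, zero_mul, add_zero, expand_eq_zero two_pos] at hz
  exact QuadraticAlgebra.ext hz him

instance isDomain_QA : IsDomain (QA k) :=
  emb_injective.isDomain emb

/-- the derivation `∂/∂ω` -/
noncomputable def dω : Derivation ℤ (QA k) (QA k) :=
  Derivation.mk'
    { toFun := fun z => (⟨z.im, 0⟩ : QA k)
      map_add' := fun z w => by ext <;> simp
      map_smul' := fun n z => by ext <;> simp }
    (fun z w => by
      have h2 : (2 : MvPolynomial (Fin 4) k) = 0 := CharP.cast_eq_zero _ 2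
      apply QuadraticAlgebra.ext
      · simp only [LinearMap.coe_mk, AddHom.coe_mk, QuadraticAlgebra.re_mul,
          QuadraticAlgebra.im_mul, QuadraticAlgebra.re_add, smul_eq_mul]
        ring
      · simp only [LinearMap.coe_mk, AddHom.coe_mk, QuadraticAlgebra.re_mul,
          QuadraticAlgebra.im_mul, QuadraticAlgebra.im_add, smul_eq_mul]
        linear_combination (- z.im * w.im) * h2)

lemma dω_apply (z : QA k) : dω z = (⟨z.im, 0⟩ : QA k) := rfl

lemma im_eq_zero_of_mem {z : QA k} (hz : z ∈ gr k 0) : z.im = 0 := by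
  simpa [imSub] using hz.2

lemma dω_zero (z : QA k) (hz : z ∈ gr k 0) : dω z = 0 := by
  rw [dω_apply, im_eq_zero_of_mem hz]
  rfl

lemma dω_succ (i : ℕ) (z : QA k) (hz : z ∈ gr k (i + 1)) : dω z ∈ gr k i :=
  ⟨hz.2, zero_mem _⟩

/-- the coordinates `x₀, …, x₃` -/
noncomputable def xA (j : Fin 4) : QA k := ⟨X j, 0⟩

/-- the coordinate `ω` -/
noncomputable def wA : QA k := ⟨0, 1⟩

lemma xA_mem (j : Fin 4) : xA j ∈ gr k 1 := ⟨isHomogeneous_X _ _, zero_mem _⟩

lemma wA_mem : wA ∈ gr k 1 := ⟨zero_mem _, isHomogeneous_one _ _⟩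

lemma wA_sq : wA * wA = xA 0 * xA 1 + xA 2 * xA (k := k) 3 := by
  apply QuadraticAlgebra.ext
  · change 0 * 0 + qf k * 1 * 1 = (X 0 * X 1 + qf k * 0 * 0) + (X 2 * X 3 + qf k * 0 * 0)
    rw [qf]
    ring
  · change (0 * 1 + 1 * 0 + 0 * 1 * 1 : MvPolynomial (Fin 4) k) =
      (X 0 * 0 + 0 * X 1 + 0 * 0 * 0) + (X 2 * 0 + 0 * X 3 + 0 * 0 * 0)
    ring

lemma xA_ne_zero (j : Fin 4) : xA (k := k) j ≠ 0 := by
  intro h
  have := congrArg QuadraticAlgebra.re h
  exact X_ne_zero j this

lemma dω_xA (j : Fin 4) : dω (xA (k := k) j) = 0 := rfl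

lemma dω_wA : dω (wA (k := k)) = 1 := rfl

lemma algebraMap_QA (c : k) : algebraMap k (QA k) c = ⟨C c, 0⟩ := rfl

lemma dω_algebraMap (c : k) : dω (algebraMap k (QA k) c) = 0 := rfl

lemma sub_const_mem (I : Ideal (QA k)) (hI : ∀ j, xA j ∈ I) (p : MvPolynomial (Fin 4) k) :
    (⟨p, 0⟩ - ⟨C (constantCoeff p), 0⟩ : QA k) ∈ I := by
  induction p using MvPolynomial.induction_on with
  | C a => simp
  | add p q hp hq =>
    have := add_mem hp hq
    convert this using 1
    apply QuadraticAlgebra.ext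
    · simp only [QuadraticAlgebra.re_sub, QuadraticAlgebra.re_add, map_add]
      ring
    · simp only [QuadraticAlgebra.im_sub, QuadraticAlgebra.im_add]
      ring
  | mul_X p j hp =>
    have : (⟨p * X j, 0⟩ - ⟨C (constantCoeff (p * X j)), 0⟩ : QA k) = ⟨p, 0⟩ * xA j := by
      apply QuadraticAlgebra.ext <;> simp [xA]
    rw [this]
    exact I.mul_mem_left _ (hI j)

lemma mem_of_pos (I : Ideal (QA k)) [I.IsPrime] (hI : ∀ j, xA j ∈ I) {n : ℕ} (hn : n ≠ 0)
    {z : QA k} (hz : z ∈ gr k n) : z ∈ I := by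
  have hw : wA ∈ I := by
    have h1 : wA * wA ∈ I := by
      rw [wA_sq]
      exact add_mem (I.mul_mem_left _ (hI 1)) (I.mul_mem_left _ (hI 3))
    exact (‹I.IsPrime›.mem_or_mem h1).elim id id
  have hre : (⟨z.re, 0⟩ : QA k) ∈ I := by
    have h1 := sub_const_mem I hI z.re
    have h2 : constantCoeff z.re = 0 := by
      have h3 : z.re.IsHomogeneous n := hz.1
      by_contra h4
      have := h3 (d := 0) (by simpa [constantCoeff_eq] using h4)
      simp at this
      exact hn this.symm
    rw [h2, C_0] at h1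
    have h3 : (⟨0, 0⟩ : QA k) = 0 := rfl
    rwa [h3, sub_zero] at h1
  have h4 : z = ⟨z.re, 0⟩ + ⟨z.im, 0⟩ * wA := by
    apply QuadraticAlgebra.ext <;> simp [wA]
  rw [h4]
  exact add_mem hre (I.mul_mem_left _ hw)

end Pool.Agent.Helper17.Strange
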