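import Mathlib

/-!
The homogeneous coordinate ring `A = k[x₀, x₁, x₂, x₃][ω] / (ω² - x₀x₁ - x₂x₃)` of a quadric.
-/

set_option autoImplicit false

open MvPolynomial DirectSum

universe u

namespace Pool.Agent.Helper17.Strange

variable (k : Type u) [CommRing k]

/-- `x₀x₁ + x₂x₃` -/
noncomputable def qf : MvPolynomial (Fin 4) k := X 0 * X 1 + X 2 * X 3

/-- the coordinate ring of the quadric `ω² = x₀x₁ + x₂x₃` -/
abbrev QA : Type u := QuadraticAlgebra (MvPolynomial (Fin 4) k) (qf k) 0

/-- shifted grading -/
noncomputable def imSub : ℕ → Submodule k (MvPolynomial (Fin 4) k)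
  | 0 => ⊥
  | n + 1 => homogeneousSubmodule (Fin 4) k n

/-- the grading of the coordinate ring -/
noncomputable def gr (n : ℕ) : Submodule k (QA k) where
  carrier := {z | z.re ∈ homogeneousSubmodule (Fin 4) k n ∧ z.im ∈ imSub k n}
  add_mem' := fun ha hb => ⟨add_mem ha.1 hb.1, add_mem ha.2 hb.2⟩
  zero_mem' := ⟨zero_mem _, zero_mem _⟩
  smul_mem' := fun c _ h => ⟨Submodule.smul_mem _ c h.1, Submodule.smul_mem _ c h.2⟩

variable {k}

lemma mem_gr {n : ℕ} {z : QA k} :
    z ∈ gr k n ↔ z.re ∈ homogeneousSubmodule (Fin 4) k n ∧ z.im ∈ imSub k n := Iff.rfl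

lemma qf_hom : (qf k).IsHomogeneous 2 := by
  have h1 : (X 0 * X 1 : MvPolynomial (Fin 4) k).IsHomogeneous 2 :=
    (isHomogeneous_X _ _).mul (isHomogeneous_X _ _)
  have h2 : (X 2 * X 3 : MvPolynomial (Fin 4) k).IsHomogeneous 2 :=
    (isHomogeneous_X _ _).mul (isHomogeneous_X _ _)
  exact h1.add h2

instance gr_gradedMonoid : SetLike.GradedMonoid (gr k) where
  one_mem := by
    refine ⟨?_, ?_⟩
    · exact isHomogeneous_one (Fin 4) k
    · exact zero_mem _
  mul_mem := by
    rintro i j z w ⟨hz1, hz2⟩ ⟨hw1, hw2⟩
    refine ⟨?_, ?_⟩
    · rw [QuadraticAlgebra.re_mul]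
      apply add_mem
      · exact hz1.mul hw1
      · cases i with
        | zero =>
          have : z.im = 0 := by simpa [imSub] using hz2
          rw [this]
          simp
        | succ i =>
          cases j with
          | zero =>
            have : w.im = 0 := by simpa [imSub] using hw2
            rw [this]
            simp
          | succ j =>
            have h := (qf_hom (k := k)).mul (IsHomogeneous.mul hz2 hw2)
            have e : 2 + (i + j) = i + 1 + (j + 1) := by ring
            rw [e] at h
            rw [mem_homogeneousSubmodule, mul_assoc]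
            exact h
    · rw [QuadraticAlgebra.im_mul]
      simp only [zero_mul, add_zero]
      apply add_mem
      · cases j with
        | zero =>
          have : w.im = 0 := by simpa [imSub] using hw2
          rw [this]
          simp
        | succ j => exact IsHomogeneous.mul hz1 hw2
      · cases i with
        | zero =>
          have : z.im = 0 := by simpa [imSub] using hz2
          rw [this]
          simp
        | succ i =>
          have h := IsHomogeneous.mul hz2 hw1
          change _ ∈ imSub k (i + 1 + j)
          rw [show i + 1 + j = i + j + 1 by ring]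
          exact h

/-- inclusion of the real part -/
noncomputable def reIncl (n : ℕ) : homogeneousSubmodule (Fin 4) k n →ₗ[k] gr k n where
  toFun a := ⟨⟨a.1, 0⟩, a.2, zero_mem _⟩
  map_add' a b := by ext <;> simp
  map_smul' a b := by ext <;> simp

/-- inclusion of the imaginary part -/
noncomputable def imIncl (n : ℕ) : homogeneousSubmodule (Fin 4) k n →ₗ[k] gr k (n + 1) where
  toFun a := ⟨⟨0, a.1⟩, zero_mem _, a.2⟩
  map_add' a b := by ext <;> simp
  map_smul' a b := by ext <;> simp

attribute [local instance] MvPolynomial.gradedAlgebra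

/-- real part of the decomposition -/
noncomputable def decRe : MvPolynomial (Fin 4) k →ₗ[k] ⨁ i, gr k i :=
  (DirectSum.toModule k ℕ _ fun n => (DirectSum.lof k ℕ (fun i => gr k i) n).comp (reIncl n)).comp
    (DirectSum.decomposeLinearEquiv (homogeneousSubmodule (Fin 4) k)).toLinearMap

/-- imaginary part of the decomposition -/
noncomputable def decIm : MvPolynomial (Fin 4) k →ₗ[k] ⨁ i, gr k i :=
  (DirectSum.toModule k ℕ _ fun n =>
    (DirectSum.lof k ℕ (fun i => gr k i) (n + 1)).comp (imIncl n)).comp
    (DirectSum.decomposeLinearEquiv (homogeneousSubmodule (Fin 4) k)).toLinearMap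

lemma decRe_of {n : ℕ} (a : homogeneousSubmodule (Fin 4) k n) :
    decRe (a : MvPolynomial (Fin 4) k) = DirectSum.lof k ℕ (fun i => gr k i) n (reIncl n a) := by
  simp only [decRe, LinearMap.comp_apply, LinearEquiv.coe_coe,
    DirectSum.decomposeLinearEquiv_apply, DirectSum.decompose_coe]
  exact DirectSum.toModule_lof (R := k) _ _

lemma decIm_of {n : ℕ} (a : homogeneousSubmodule (Fin 4) k n) :
    decIm (a : MvPolynomial (Fin 4) k) =
      DirectSum.lof k ℕ (fun i => gr k i) (n + 1) (imIncl n a) := by
  simp only [decIm, LinearMap.comp_apply, LinearEquiv.coe_coe,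
    DirectSum.decomposeLinearEquiv_apply, DirectSum.decompose_coe]
  exact DirectSum.toModule_lof (R := k) _ _

/-- the decomposition -/
noncomputable def dec : QA k →ₗ[k] ⨁ i, gr k i where
  toFun z := decRe z.re + decIm z.im
  map_add' z w := by simp only [QuadraticAlgebra.re_add, QuadraticAlgebra.im_add, map_add]; abel
  map_smul' c z := by simp

lemma coe_decRe (a : MvPolynomial (Fin 4) k) :
    DirectSum.coeLinearMap (gr k) (decRe a) = ⟨a, 0⟩ := by
  induction a using DirectSum.Decomposition.inductionOn (homogeneousSubmodule (Fin 4) k) with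
  | zero => simp; rfl
  | homogeneous a =>
    rw [decRe_of]
    simp [reIncl, DirectSum.coeLinearMap_lof]
  | add a b ha hb =>
    rw [map_add, map_add, ha, hb]
    ext <;> simp

lemma coe_decIm (a : MvPolynomial (Fin 4) k) :
    DirectSum.coeLinearMap (gr k) (decIm a) = ⟨0, a⟩ := by
  induction a using DirectSum.Decomposition.inductionOn (homogeneousSubmodule (Fin 4) k) with
  | zero => simp; rfl
  | homogeneous a =>
    rw [decIm_of]
    simp [imIncl, DirectSum.coeLinearMap_lof]
  | add a b ha hb =>
    rw [map_add, map_add, ha, hb]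
    ext <;> simp

noncomputable instance gr_decomposition : DirectSum.Decomposition (gr k) :=
  DirectSum.Decomposition.ofLinearMap (gr k) dec
    (by
      ext z
      · simp [dec, coe_decRe, coe_decIm]
      · simp [dec, coe_decRe, coe_decIm])
    (by
      apply DirectSum.linearMap_ext
      intro n
      apply LinearMap.ext
      intro z
      simp only [LinearMap.comp_apply, DirectSum.coeLinearMap_lof, LinearMap.id_apply]
      obtain ⟨⟨a, b⟩, ha, hb⟩ := z
      change decRe a + decIm b = _
      change a ∈ homogeneousSubmodule (Fin 4) k n at ha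
      change b ∈ imSub k n at hb
      rw [decRe_of ⟨a, ha⟩]
      cases n with
      | zero =>
        have hb0 : b = 0 := by simpa [imSub] using hb
        subst hb0
        rw [map_zero, add_zero]
        rfl
      | succ n =>
        rw [decIm_of ⟨b, hb⟩, ← map_add]
        congr 1
        ext <;> simp [reIncl, imIncl])

noncomputable instance gr_gradedAlgebra : GradedAlgebra (gr k) where
  toGradedMonoid := gr_gradedMonoid
  toDecomposition := gr_decomposition

end Pool.Agent.Helper17.Strange
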