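import Mathlib

/-!
Restriction maps for sections of the structure sheaf and of a sheaf of modules.
-/

set_option autoImplicit false

open AlgebraicGeometry CategoryTheory TopologicalSpace Opposite

universe u

namespace Pool.Agent.Helper17.Strange

variable {X : Scheme.{u}}

/-- Restriction of regular functions from `U` to an open subset `V` of `U`. -/
noncomputable def restr {U V : X.Opens} (h : V ≤ U) (f : Γ(X, U)) : Γ(X, V) :=
  X.presheaf.map (homOfLE h).op f

/-- Restriction of sections of `E` from `U` to an open subset `V` of `U`. -/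
noncomputable def secRestr {E : X.Modules} {U V : X.Opens} (h : V ≤ U) (e : Γ(E, U)) : Γ(E, V) :=
  E.presheaf.map (homOfLE h).op e

lemma restr_apply {U V : X.Opens} (h : V ≤ U) (f : Γ(X, U)) :
    restr h f = X.presheaf.map (homOfLE h).op f := rfl

lemma restr_add {U V : X.Opens} (h : V ≤ U) (f g : Γ(X, U)) :
    restr h (f + g) = restr h f + restr h g := map_add _ f g

lemma restr_mul {U V : X.Opens} (h : V ≤ U) (f g : Γ(X, U)) :
    restr h (f * g) = restr h f * restr h g := map_mul _ f g

lemma restr_neg {U V : X.Opens} (h : V ≤ U) (f : Γ(X, U)) :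
    restr h (-f) = - restr h f := map_neg _ f

lemma restr_zero {U V : X.Opens} (h : V ≤ U) : restr h (0 : Γ(X, U)) = 0 := map_zero _

lemma restr_one {U V : X.Opens} (h : V ≤ U) : restr h (1 : Γ(X, U)) = 1 := map_one _

lemma restr_restr {U V W : X.Opens} (h : V ≤ U) (h' : W ≤ V) (r : Γ(X, U)) :
    restr h' (restr h r) = restr (h'.trans h) r := by
  rw [restr_apply, restr_apply, restr_apply, ← CommRingCat.comp_apply, ← Functor.map_comp]
  rfl

end Pool.Agent.Helper17.Strange
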