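import Pool.Agent.Helper17.Strange.Sections

/-!
The tangent sheaf of a scheme over a commutative ring.
-/

set_option autoImplicit false

open AlgebraicGeometry CategoryTheory TopologicalSpace Opposite

universe u

namespace Pool.Agent.Helper17.Strange

variable {k : Type u} [CommRing k] {X : Scheme.{u}}

/-- The homomorphism from `k` to the ring of global functions given by the structure morphism `s` of
the `k`-scheme `X`. -/
noncomputable def structureHom (s : X ⟶ Spec (.of k)) : k →+* Γ(X, ⊤) :=
  ((Scheme.ΓSpecIso (.of k)).inv ≫ s.appTop).hom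

/-- The constant function on `U` given by `c`. -/
noncomputable def const (s : X ⟶ Spec (.of k)) (U : X.Opens) (c : k) : Γ(X, U) :=
  restr le_top (structureHom s c)

lemma const_res (s : X ⟶ Spec (.of k)) {U V : X.Opens} (h : V ≤ U) (c : k) :
    restr h (const s U c) = const s V c :=
  restr_restr _ _ _

/-- `D` is a vector field on the open subset `U` of the `k`-scheme `X` (with structure morphism `s`):
a `k`-linear derivation of the sheaf of rings `𝒪_U`, i.e. a family of `k`-linear derivations
`D V` of the rings `Γ(X, V)`, for `V ⊆ U` open, compatible with restriction. -/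
structure IsVectorField (s : X ⟶ Spec (.of k)) (U : X.Opens)
    (D : ∀ V : X.Opens, V ≤ U → Γ(X, V) → Γ(X, V)) : Prop where
  map_add : ∀ V h f g, D V h (f + g) = D V h f + D V h g
  leibniz : ∀ V h f g, D V h (f * g) = f * D V h g + g * D V h f
  map_const : ∀ V h c, D V h (const s V c) = 0
  res : ∀ V W (hV : V ≤ U) (hW : W ≤ V) f,
    restr hW (D V hV f) = D W (hW.trans hV) (restr hW f)

/-- A vector field on the open subset `U` of the `k`-scheme `X`. -/
@[ext]
structure VectorField (s : X ⟶ Spec (.of k)) (U : X.Opens) where
  /-- the map `Γ(X, V) → Γ(X, V)`, for `V ⊆ U` -/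
  toFun : ∀ V : X.Opens, V ≤ U → Γ(X, V) → Γ(X, V)
  isVectorField : IsVectorField s U toFun

namespace VectorField

variable {s : X ⟶ Spec (.of k)} {U : X.Opens}

lemma ext' {D E : VectorField s U} (h : ∀ V hV f, D.toFun V hV f = E.toFun V hV f) : D = E :=
  VectorField.ext (by funext V hV f; exact h V hV f)

lemma isVectorField_zero : IsVectorField s U fun _ _ _ => 0 where
  map_add := by simp
  leibniz := by simp
  map_const := by simp
  res := by simp [restr_zero]

lemma isVectorField_add (D E : VectorField s U) :
    IsVectorField s U fun V h f => D.toFun V h f + E.toFun V h f where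
  map_add V h f g := by rw [D.isVectorField.map_add, E.isVectorField.map_add]; abel
  leibniz V h f g := by rw [D.isVectorField.leibniz, E.isVectorField.leibniz]; ring
  map_const V h c := by rw [D.isVectorField.map_const, E.isVectorField.map_const, add_zero]
  res V W hV hW f := by rw [restr_add, D.isVectorField.res, E.isVectorField.res]

lemma isVectorField_neg (D : VectorField s U) : IsVectorField s U fun V h f => - D.toFun V h f where
  map_add V h f g := by rw [D.isVectorField.map_add]; abel
  leibniz V h f g := by rw [D.isVectorField.leibniz]; ring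
  map_const V h c := by rw [D.isVectorField.map_const, neg_zero]
  res V W hV hW f := by rw [restr_neg, D.isVectorField.res]

lemma isVectorField_smul (r : Γ(X, U)) (D : VectorField s U) :
    IsVectorField s U fun V h f => restr h r * D.toFun V h f where
  map_add V h f g := by rw [D.isVectorField.map_add, mul_add]
  leibniz V h f g := by rw [D.isVectorField.leibniz]; ring
  map_const V h c := by rw [D.isVectorField.map_const, mul_zero]
  res V W hV hW f := by rw [restr_mul, D.isVectorField.res, restr_restr]

lemma isVectorField_restrict {V : X.Opens} (h : V ≤ U) (D : VectorField s U) :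
    IsVectorField s V fun W hW f => D.toFun W (hW.trans h) f where
  map_add W hW := D.isVectorField.map_add W (hW.trans h)
  leibniz W hW := D.isVectorField.leibniz W (hW.trans h)
  map_const W hW := D.isVectorField.map_const W (hW.trans h)
  res W W' hW hW' := D.isVectorField.res W W' (hW.trans h) hW'

instance instZero : Zero (VectorField s U) := ⟨⟨fun _ _ _ => 0, isVectorField_zero⟩⟩

instance instAdd : Add (VectorField s U) := ⟨fun D E => ⟨_, isVectorField_add D E⟩⟩

instance instNeg : Neg (VectorField s U) := ⟨fun D => ⟨_, isVectorField_neg D⟩⟩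

instance instAddCommGroup : AddCommGroup (VectorField s U) where
  add_assoc _ _ _ := ext' fun _ _ _ => add_assoc _ _ _
  zero_add _ := ext' fun _ _ _ => zero_add _
  add_zero _ := ext' fun _ _ _ => add_zero _
  add_comm _ _ := ext' fun _ _ _ => add_comm _ _
  neg_add_cancel _ := ext' fun _ _ _ => neg_add_cancel _
  nsmul := nsmulRec
  zsmul := zsmulRec

/-- The product of a regular function and a vector field. -/
noncomputable instance instSMul : SMul Γ(X, U) (VectorField s U) :=
  ⟨fun r D => ⟨_, isVectorField_smul r D⟩⟩

/-- The `Γ(X, U)`-module of vector fields on `U`. -/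
noncomputable instance instModule (s : X ⟶ Spec (.of k)) (U : X.Opens) :
    Module Γ(X, U) (VectorField s U) where
  one_smul D := ext' fun V h f => by
    change restr h 1 * D.toFun V h f = D.toFun V h f
    rw [restr_one, one_mul]
  mul_smul r t D := ext' fun V h f => by
    change restr h (r * t) * D.toFun V h f = restr h r * (restr h t * D.toFun V h f)
    rw [restr_mul, mul_assoc]
  smul_zero r := ext' fun V h f => mul_zero _
  smul_add r D E := ext' fun V h f => mul_add _ _ _
  add_smul r t D := ext' fun V h f => by
    change restr h (r + t) * D.toFun V h f =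
      restr h r * D.toFun V h f + restr h t * D.toFun V h f
    rw [restr_add, add_mul]
  zero_smul D := ext' fun V h f => by
    change restr h 0 * D.toFun V h f = 0
    rw [restr_zero, zero_mul]

/-- Restriction of a vector field from `U` to an open subset `V` of `U`. -/
def restrict {U V : X.Opens} (h : V ≤ U) : VectorField s U →+ VectorField s V where
  toFun D := ⟨_, isVectorField_restrict h D⟩
  map_zero' := rfl
  map_add' _ _ := rfl

end VectorField

variable (s : X ⟶ Spec (.of k))

/-- The presheaf of abelian groups of vector fields. -/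
def tangentPresheaf : (Opens X.toPresheafedSpace)ᵒᵖ ⥤ Ab.{u} where
  obj U := AddCommGrpCat.of (VectorField s U.unop)
  map i := AddCommGrpCat.ofHom (VectorField.restrict i.unop.le)
  map_id _ := rfl
  map_comp _ _ := rfl

noncomputable instance tangentModule (U : (Opens X.toPresheafedSpace)ᵒᵖ) :
    Module (X.ringCatSheaf.obj.obj U) ((tangentPresheaf s).obj U) :=
  VectorField.instModule s U.unop

variable {s} in
lemma exists_glue {ι : Type u} (U : ι → X.Opens) (D : ∀ i, VectorField s (U i))
    (hD : ∀ (i j : ι) (V : X.Opens) (hi : V ≤ U i) (hj : V ≤ U j) (f : Γ(X, V)),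
      (D i).toFun V hi f = (D j).toFun V hj f) :
    ∃! E : VectorField s (iSup U), ∀ i, VectorField.restrict (le_iSup U i) E = D i := by
  have key : ∀ (V : X.Opens) (hV : V ≤ iSup U) (f : Γ(X, V)), ∃! g : Γ(X, V), ∀ i,
      X.presheaf.map (homOfLE (inf_le_left : V ⊓ U i ≤ V)).op g =
        (D i).toFun (V ⊓ U i) inf_le_right
          (X.presheaf.map (homOfLE (inf_le_left : V ⊓ U i ≤ V)).op f) := by
    intro V hV f
    refine X.sheaf.existsUnique_gluing' (fun i => V ⊓ U i) V (fun i => homOfLE inf_le_left)
      ?_ (fun i => (D i).toFun (V ⊓ U i) inf_le_right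
          (X.presheaf.map (homOfLE (inf_le_left : V ⊓ U i ≤ V)).op f)) ?_
    · rw [← inf_iSup_eq]
      exact le_inf le_rfl hV
    · intro i j
      have h1 := (D i).isVectorField.res (V ⊓ U i) ((V ⊓ U i) ⊓ (V ⊓ U j)) inf_le_right inf_le_left
        (X.presheaf.map (homOfLE (inf_le_left : V ⊓ U i ≤ V)).op f)
      have h2 := (D j).isVectorField.res (V ⊓ U j) ((V ⊓ U i) ⊓ (V ⊓ U j)) inf_le_right inf_le_right
        (X.presheaf.map (homOfLE (inf_le_left : V ⊓ U j ≤ V)).op f)
      refine h1.trans (Eq.trans ?_ h2.symm)
      rw [← restr_apply, ← restr_apply, restr_restr, restr_restr]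
      exact hD i j _ _ _ _
  choose G hG hG' using key
  have hG1 : ∀ (V : X.Opens) (hV : V ≤ iSup U) (f : Γ(X, V)) (i : ι),
      restr (inf_le_left : V ⊓ U i ≤ V) (G V hV f) =
        (D i).toFun (V ⊓ U i) inf_le_right (restr (inf_le_left : V ⊓ U i ≤ V) f) := hG
  have hext : ∀ (V : X.Opens) (_ : V ≤ iSup U) (g h : Γ(X, V)),
      (∀ i, restr (inf_le_left : V ⊓ U i ≤ V) g = restr (inf_le_left : V ⊓ U i ≤ V) h) →
      g = h := by
    intro V hV g h hgh
    refine X.sheaf.eq_of_locally_eq' (fun i => V ⊓ U i) V (fun i => homOfLE inf_le_left) ?_ _ _ hgh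
    rw [← inf_iSup_eq]
    exact le_inf le_rfl hV
  refine ⟨⟨fun V hV f => G V hV f, ?_, ?_, ?_, ?_⟩, ?_, ?_⟩
  · intro V hV f g
    apply hext V hV
    intro i
    rw [hG1, restr_add, restr_add, hG1, hG1, (D i).isVectorField.map_add]
  · intro V hV f g
    apply hext V hV
    intro i
    rw [hG1, restr_mul, restr_add, restr_mul, restr_mul, hG1, hG1, (D i).isVectorField.leibniz]
  · intro V hV c
    apply hext V hV
    intro i
    rw [hG1, const_res, (D i).isVectorField.map_const, restr_zero]
  · intro V W hV hW f
    apply hext W (hW.trans hV)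
    intro i
    rw [hG1, restr_restr, restr_restr]
    have h1 := hG1 V hV f i
    have h2 := congrArg (restr (inf_le_inf_right _ hW : W ⊓ U i ≤ V ⊓ U i)) h1
    rw [restr_restr, (D i).isVectorField.res, restr_restr] at h2
    exact h2
  · intro i
    apply VectorField.ext'
    intro V hV f
    change G V _ f = (D i).toFun V hV f
    refine hext V (hV.trans (le_iSup U i)) _ _ fun j => ?_
    rw [hG1, (D i).isVectorField.res]
    exact hD j i _ _ _ _
  · intro E hE
    apply VectorField.ext'
    intro V hV f
    change E.toFun V hV f = G V hV f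
    apply hG'
    intro i
    beta_reduce
    rw [← restr_apply, E.isVectorField.res, ← hE i]
    rfl

lemma tangentPresheaf_isSheaf : TopCat.Presheaf.IsSheaf (tangentPresheaf s) := by
  rw [TopCat.Presheaf.isSheaf_iff_isSheafUniqueGluing]
  intro ι U D hD
  exact exists_glue (s := s) U D fun i j V hi hj f =>
    congrArg (fun E : VectorField s (U i ⊓ U j) => E.toFun V (le_inf hi hj) f) (hD i j)

variable {s} in
lemma restrict_smul {U V : X.Opens} (h : V ≤ U) (r : Γ(X, U)) (D : VectorField s U) :
    VectorField.restrict h (r • D) = restr h r • VectorField.restrict h D :=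
  VectorField.ext' fun W hW f =>
    congrArg (· * D.toFun W (hW.trans h) f) (restr_restr h hW r).symm

/-- The tangent sheaf `T_X` of the `k`-scheme `X` with structure morphism `s`: the sheaf of
`k`-linear derivations of the structure sheaf, as a sheaf of `𝒪_X`-modules. -/
noncomputable def tangentSheaf : X.Modules :=
  ⟨PresheafOfModules.ofPresheaf (R := X.ringCatSheaf.obj) (tangentPresheaf s)
    (fun _ _ i r D => restrict_smul i.unop.le r D), tangentPresheaf_isSheaf s⟩

end Pool.Agent.Helper17.Strange
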